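import Mathlib

/-!
# Isotropic idempotents in rings with involution
-/

namespace Pool.Agent.R904

open Polynomial

/-- Approximate solutions of `X g ^ 2 + 2 g + 1 = 0`. -/
lemma exists_poly (N : ℕ) : ∃ g : ℚ[X], (X : ℚ[X]) ^ N ∣ X * g ^ 2 + 2 * g + 1 := by
  induction N with
  | zero => exact ⟨0, by simp⟩
  | succ n ih =>
    obtain ⟨g, h, hg⟩ := ih
    refine ⟨g - C (1 / 2) * (X * g ^ 2 + 2 * g + 1), h * (C (1 / 4) * (X * g ^ 2 + 2 * g + 1) - g), ?_⟩
    have h2 : (2 : ℚ[X]) * C (1 / 2) = 1 := by
      rw [show (2 : ℚ[X]) = C 2 from rfl, ← C_mul]; norm_num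
    have h4 : C (1 / 2 : ℚ) * C (1 / 2) = C (1 / 4) := by
      rw [← C_mul]; norm_num
    have h4' : (2 : ℚ[X]) * C (1 / 4) = C (1 / 2) := by
      rw [show (2 : ℚ[X]) = C 2 from rfl, ← C_mul]; norm_num
    set r := X * g ^ 2 + 2 * g + 1 with hr
    have e1 : X * (g - C (1 / 2) * r) ^ 2 + 2 * (g - C (1 / 2) * r) + 1 =
        r - (2 * C (1 / 2)) * (X * g * r) + (C (1 / 2) * C (1 / 2)) * (X * r ^ 2) -
          (2 * C (1 / 2)) * r := by
      rw [hr]; ring
    rw [e1, h2, h4, pow_succ]
    linear_combination (X * (C (1 / 4) * r - g)) * hg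

section ring

variable {R : Type*} [Ring R] [Algebra ℚ R]

/-- For `z` nilpotent there is a solution of `z γ ^ 2 + 2 γ + 1 = 0` in `ℚ[z]`. -/
lemma exists_gamma {z : R} (hz : IsNilpotent z) : ∃ g : ℚ[X],
    z * (aeval z g) ^ 2 + 2 * aeval z g + 1 = 0 := by
  obtain ⟨N, hN⟩ := hz
  obtain ⟨g, h, hg⟩ := exists_poly N
  refine ⟨g, ?_⟩
  have h1 := congrArg (aeval z) hg
  simp only [map_add, map_mul, map_pow, aeval_X, map_one, map_ofNat] at h1
  rw [h1, hN, zero_mul]

lemma aeval_commute {z a : R} (h : Commute z a) (g : ℚ[X]) : Commute (aeval z g) a := by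
  induction g using Polynomial.induction_on' with
  | add p q hp hq => rw [map_add]; exact hp.add_left hq
  | monomial n c =>
    rw [aeval_monomial]
    exact (Algebra.commute_algebraMap_left c a).mul_left (h.pow_left n)

end ring

section star

variable {R : Type*} [Ring R] [Algebra ℚ R] [StarRing R]

lemma star_qsmul (q : ℚ) (a : R) : star (q • a) = q • star a := by
  have := map_rat_smul (starAddEquiv : R ≃+ R) q a
  exact this

lemma star_aeval (z : R) (g : ℚ[X]) : star (aeval z g) = aeval (star z) g := by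
  induction g using Polynomial.induction_on' with
  | add p q hp hq => rw [map_add, map_add, star_add, hp, hq]
  | monomial n c =>
    rw [aeval_monomial, aeval_monomial, Algebra.algebraMap_eq_smul_one, smul_mul_assoc, one_mul,
      smul_mul_assoc, one_mul, star_qsmul, star_pow]

/-- **Isotropic systems of idempotents.** Let `e i` be orthogonal idempotents with sum `e` such that
`e e^* e` is nilpotent. Then the `e i` can be modified to orthogonal idempotents `q i` which are
orthogonal to all `(q j)^*`. -/
theorem exists_isotropic {ι : Type*} [Fintype ι] [DecidableEq ι] (e : ι → R)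
    (hee : ∀ i j, e i * e j = if i = j then e i else 0)
    (hz : IsNilpotent ((∑ i, e i) * star (∑ i, e i) * (∑ i, e i)))
    {S : Type*} [Ring S] (ρ : R →+* S) (hρ : ρ (star (∑ i, e i) * (∑ i, e i)) = 0) :
    ∃ q : ι → R, (∀ i j, q i * q j = if i = j then q i else 0) ∧ (∀ i j, q i * star (q j) = 0) ∧
      (∀ i j, star (q i) * q j = 0) ∧
      (∀ i, ρ (q i) = ρ (e i - (1 / 2 : ℚ) • (e i * star (∑ i, e i)))) ∧
      ∀ f : R, star f = f → (∀ i, f * e i = e i) → (∀ i, e i * f = e i) →
        ∀ i, f * q i = q i ∧ q i * f = q i := by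
  obtain ⟨E, hE⟩ : ∃ E, E = ∑ i, e i := ⟨_, rfl⟩
  rw [← hE] at hz hρ ⊢
  have heE : ∀ i, e i * E = e i := by
    intro i
    rw [hE, Finset.mul_sum, Finset.sum_eq_single i]
    · rw [hee, if_pos rfl]
    · intro j _ hj
      rw [hee, if_neg (Ne.symm hj)]
    · intro h; exact absurd (Finset.mem_univ i) h
  have hEe : ∀ i, E * e i = e i := by
    intro i
    rw [hE, Finset.sum_mul, Finset.sum_eq_single i]
    · rw [hee, if_pos rfl]
    · intro j _ hj
      rw [hee, if_neg hj]
    · intro h; exact absurd (Finset.mem_univ i) h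
  have hEE : E * E = E := by
    have h1 : E * E = ∑ i, e i * E := by rw [← Finset.sum_mul, ← hE]
    rw [h1, Finset.sum_congr rfl fun i _ => heE i, ← hE]
  obtain ⟨c, hc⟩ : ∃ c, c = star E * E := ⟨_, rfl⟩
  rw [← hc] at hρ
  obtain ⟨z, hzdef⟩ : ∃ z, z = E * star E * E := ⟨_, rfl⟩
  rw [← hzdef] at hz
  have hzc : E * c = z := by rw [hc, hzdef, mul_assoc]
  have hsc : star c = c := by rw [hc, star_mul, star_star]
  have hcE : c * E = c := by rw [hc, mul_assoc, hEE]
  have hEsE : star E * star E = star E := by rw [← star_mul, hEE]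
  have hsEc : star E * c = c := by rw [hc, ← mul_assoc, hEsE]
  have hzE : z * E = z := by rw [hzdef, mul_assoc, hEE]
  have hEz : E * z = z := by rw [hzdef, ← mul_assoc, ← mul_assoc, hEE]
  have hcc : c * c = c * z := by
    rw [← hzc, ← mul_assoc, hcE]
  have hszc : star z = c * star E := by
    rw [← hzc, star_mul, hsc]
  have hsz : star z * c = c * z := by
    rw [hszc, mul_assoc, hsEc, hcc]
  obtain ⟨g, hg⟩ := exists_gamma hz
  obtain ⟨γ, hγ⟩ : ∃ γ, γ = aeval z g := ⟨_, rfl⟩
  rw [← hγ] at hg
  have hγE : Commute γ E := by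
    rw [hγ]; exact aeval_commute (by rw [Commute, SemiconjBy, hzE, hEz]) g
  have hγz : Commute γ z := by rw [hγ]; exact aeval_commute (Commute.refl z) g
  have hsγ : star γ * c = c * γ := by
    rw [hγ, star_aeval]
    generalize g = p
    induction p using Polynomial.induction_on' with
    | add p q hp hq => rw [map_add, map_add, add_mul, mul_add, hp, hq]
    | monomial n a =>
      have : star z ^ n * c = c * z ^ n := by
        induction n with
        | zero => simp
        | succ n ih => rw [pow_succ, mul_assoc, hsz, ← mul_assoc, ih, pow_succ, mul_assoc]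
      rw [aeval_monomial, aeval_monomial, mul_assoc, this, ← mul_assoc, Algebra.commutes a c,
        mul_assoc]
  have hcγc : c * γ * c = c * (z * γ) := by
    have h1 : γ * c = star (c * star γ) := by rw [star_mul, star_star, hsc]
    -- `c γ c = star γ c c = star γ c z = c γ z`
    rw [← hsγ, mul_assoc, hcc, ← mul_assoc, hsγ, mul_assoc, hγz.eq]
  obtain ⟨j, hj⟩ : ∃ j, j = E + c * γ := ⟨_, rfl⟩
  have hEj : E * j = E * (1 + z * γ) := by
    rw [hj, mul_add, mul_add, hEE, mul_one, ← mul_assoc, hzc, ← mul_assoc, hEz]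
  have hjE : j * E = j := by
    rw [hj, add_mul, hEE, mul_assoc, hγE.eq, ← mul_assoc, hcE]
  have hsj : star j = star E + star γ * c := by
    rw [hj, star_add, star_mul, hsc]
  have hjj : star j * j = 0 := by
    rw [hsj, hj, add_mul, mul_add, mul_add, ← hc, ← mul_assoc (star E), hsEc, mul_assoc _ c E, hcE,
      hsγ, ← mul_assoc (c * γ), hcγc]
    have h1 : c + c * γ + (c * γ + c * (z * γ) * γ) = c * (z * γ ^ 2 + 2 * γ + 1) := by
      rw [pow_two, two_mul]
      simp only [mul_add, mul_assoc, mul_one]
      abel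
    rw [h1, hg, mul_zero]
  have hzγ : IsNilpotent (z * γ) := (hγz.symm).isNilpotent_mul_right hz
  obtain ⟨u, hu⟩ := hzγ.isUnit_one_add
  have huE : Commute (u : R) E := by
    rw [hu]
    have h1 : Commute z E := by rw [Commute, SemiconjBy, hzE, hEz]
    exact (Commute.one_left E).add_left (h1.mul_left hγE)
  have hvE : Commute ((u⁻¹ : Rˣ) : R) E := huE.units_inv_left
  obtain ⟨v, hv⟩ : ∃ v : R, v = ((u⁻¹ : Rˣ) : R) := ⟨_, rfl⟩
  rw [← hv] at hvE
  obtain ⟨w, hw⟩ : ∃ w, w = E * v := ⟨_, rfl⟩
  have hEw : E * w = w := by rw [hw, ← mul_assoc, hEE]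
  have hwE : w * E = w := by rw [hw, mul_assoc, hvE.eq, ← mul_assoc, hEE]
  have hwj : w * j = E := by
    calc w * j = w * (E * j) := by rw [← mul_assoc, hwE]
      _ = E * v * (E * u) := by rw [hEj, hu, hw]
      _ = E * E * (v * u) := by
          rw [mul_assoc, ← mul_assoc v, hvE.eq]; simp only [mul_assoc]
      _ = E := by rw [hEE, hv, Units.inv_mul, mul_one]
  have hjw : E * j * w = E := by
    calc E * j * w = E * u * (E * v) := by rw [hEj, hu, hw]
      _ = E * E * (u * v) := by
          rw [mul_assoc, ← mul_assoc (u : R), huE.eq]; simp only [mul_assoc]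
      _ = E := by rw [hEE, hv, Units.mul_inv, mul_one]
  -- first modification
  obtain ⟨q', hq'⟩ : ∃ q' : ι → R, ∀ i, q' i = j * e i * w := ⟨_, fun _ => rfl⟩
  obtain ⟨E', hE'⟩ : ∃ E', E' = j * w := ⟨_, rfl⟩
  have hwje : ∀ i, w * j * e i = e i := fun i => by rw [hwj, hEe]
  have q'q' : ∀ m n, q' m * q' n = if m = n then q' m else 0 := by
    intro m n
    have : q' m * q' n = j * (e m * (w * j * e n)) * w := by simp only [hq', mul_assoc]
    rw [this, hwje, hee]
    split_ifs with h
    · rw [hq']
    · rw [mul_zero, zero_mul]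
  have q'E' : ∀ m, q' m * E' = q' m := by
    intro m
    have : q' m * E' = j * (e m * (w * j)) * w := by simp only [hq', hE', mul_assoc]
    rw [this, hwj, heE, hq']
  have E'q' : ∀ m, E' * q' m = q' m := by
    intro m
    have : E' * q' m = j * (w * j * e m) * w := by simp only [hq', hE', mul_assoc]
    rw [this, hwje, hq']
  have sq'q' : ∀ m n, star (q' m) * q' n = 0 := by
    intro m n
    have : star (q' m) * q' n = star w * star (e m) * (star j * j) * e n * w := by
      simp only [hq', star_mul, mul_assoc]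
    rw [this, hjj, mul_zero, zero_mul, zero_mul]
  have sE'q' : ∀ n, star E' * q' n = 0 := by
    intro n
    have : star E' * q' n = star w * (star j * j) * e n * w := by
      simp only [hq', hE', star_mul, mul_assoc]
    rw [this, hjj, mul_zero, zero_mul, zero_mul]
  have sE'E' : star E' * E' = 0 := by
    have : star E' * E' = star w * (star j * j) * w := by
      simp only [hE', star_mul, mul_assoc]
    rw [this, hjj, mul_zero, zero_mul]
  have sq'E' : ∀ n, star (q' n) * E' = 0 := by
    intro n
    have := congrArg star (sE'q' n)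
    rwa [star_mul, star_star, star_zero] at this
  have sE'sq' : ∀ n, star E' * star (q' n) = star (q' n) := by
    intro n
    rw [← star_mul, q'E']
  have sq'sE' : ∀ n, star (q' n) * star E' = star (q' n) := by
    intro n
    rw [← star_mul, E'q']
  -- second modification
  obtain ⟨q, hq⟩ : ∃ q : ι → R, ∀ i, q i = q' i - (1 / 2 : ℚ) • (q' i * star E') :=
    ⟨_, fun _ => rfl⟩
  have sq : ∀ i, star (q i) = star (q' i) - (1 / 2 : ℚ) • (E' * star (q' i)) := by
    intro i
    rw [hq, star_sub, star_qsmul, star_mul, star_star]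
  refine ⟨q, ?_, ?_, ?_, ?_, ?_⟩
  · intro m n
    rw [hq, hq, sub_mul, mul_sub, mul_sub, smul_mul_assoc, smul_mul_assoc, mul_smul_comm, mul_smul_comm,
      mul_assoc (q' m) (star E') (q' n), sE'q', mul_assoc (q' m) (star E') (q' n * star E'),
      ← mul_assoc (star E') (q' n), sE'q', ← mul_assoc (q' m) (q' n), q'q']
    split_ifs with h
    · simp
    · simp
  · intro m n
    rw [sq, hq, sub_mul, mul_sub, mul_sub, smul_mul_assoc, smul_mul_assoc, mul_smul_comm, mul_smul_comm,
      ← mul_assoc (q' m) E', q'E', mul_assoc (q' m) (star E') (star (q' n)), sE'sq',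
      mul_assoc (q' m) (star E') (E' * star (q' n)), ← mul_assoc (star E') E', sE'E']
    rw [zero_mul, mul_zero, smul_zero, smul_zero, sub_zero, sub_sub, ← add_smul]
    norm_num
  · intro m n
    rw [sq, hq, sub_mul, mul_sub, mul_sub, smul_mul_assoc, smul_mul_assoc, mul_smul_comm, mul_smul_comm,
      sq'q', ← mul_assoc (star (q' m)) (q' n), sq'q', mul_assoc E' (star (q' m)) (q' n), sq'q',
      mul_assoc E' (star (q' m)) (q' n * star E'), ← mul_assoc (star (q' m)) (q' n), sq'q']
    simp
  · intro i
    have hρz : ρ z = 0 := by rw [← hzc, map_mul, hρ, mul_zero]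
    have hρu : ρ (u : R) = 1 := by rw [hu, map_add, map_one, map_mul, hρz, zero_mul, add_zero]
    have hρv : ρ v = 1 := by
      have h1 : ρ (v * u) = 1 := by rw [hv, Units.inv_mul, map_one]
      rwa [map_mul, hρu, mul_one] at h1
    have hρj : ρ j = ρ E := by rw [hj, map_add, map_mul, hρ, zero_mul, add_zero]
    have hρw : ρ w = ρ E := by rw [hw, map_mul, hρv, mul_one]
    have hρE' : ρ E' = ρ E := by rw [hE', map_mul, hρj, hρw, ← map_mul, hEE]
    have hρq' : ρ (q' i) = ρ (e i) := by
      rw [hq', map_mul, map_mul, hρj, hρw, ← map_mul, ← map_mul, hEe, heE]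
    have hjs : ρ (star j) = ρ (star E) := by
      rw [hsj, map_add, map_mul, hρ, mul_zero, add_zero]
    have hsw : star w = star v * star E := by
      rw [hw, ← hvE.eq, star_mul, ← star_mul, hvE.eq, star_mul]
    have hsu : ρ (star (u : R)) = 1 := by
      rw [hu, star_add, star_one, star_mul, map_add, map_one, map_mul]
      have : ρ (star z) = 0 := by
        rw [← hzc, star_mul, hsc, map_mul, hρ, zero_mul]
      rw [this, mul_zero, add_zero]
    have hsv : ρ (star v) = 1 := by
      have h1 : ρ (star v * star (u : R)) = 1 := by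
        rw [← star_mul, hv, Units.mul_inv, star_one, map_one]
      rwa [map_mul, hsu, mul_one] at h1
    have hρsE' : ρ (star E') = ρ (star E) := by
      rw [hE', star_mul, map_mul, hsw, map_mul, hsv, one_mul, hjs, ← map_mul, hEsE]
    have h2 : ∀ x y : R, ρ x = ρ y → ρ ((1 / 2 : ℚ) • x) = ρ ((1 / 2 : ℚ) • y) := by
      intro x y hxy
      rw [← one_mul x, ← one_mul y, ← smul_mul_assoc, ← smul_mul_assoc, map_mul, map_mul, hxy]
    rw [hq, map_sub, map_sub, hρq']
    congr 1
    apply h2
    rw [map_mul, map_mul, hρq', hρsE']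
  · intro f hf hfe hef i
    have hfE : f * E = E := by
      rw [hE, Finset.mul_sum]
      exact Finset.sum_congr rfl fun i _ => hfe i
    have hEf : E * f = E := by
      rw [hE, Finset.sum_mul]
      exact Finset.sum_congr rfl fun i _ => hef i
    have hfsE : f * star E = star E := by
      have := congrArg star hEf
      rwa [star_mul, hf] at this
    have hsEf : star E * f = star E := by
      have := congrArg star hfE
      rwa [star_mul, hf] at this
    have hfc : f * c = c := by rw [hc, ← mul_assoc, hfsE]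
    have hfj : f * j = j := by rw [hj, mul_add, hfE, ← mul_assoc, hfc]
    have hjf : j * f = j := by
      rw [← hjE, mul_assoc, hEf]
    have hwf : w * f = w := by
      rw [← hwE, mul_assoc, hEf]
    have hfw : f * w = w := by
      rw [← hEw, ← mul_assoc, hfE]
    have hfq' : f * q' i = q' i := by
      rw [hq', ← mul_assoc, ← mul_assoc, hfj]
    have hq'f : q' i * f = q' i := by
      rw [hq', mul_assoc, hwf]
    have hsE'f : star E' * f = star E' := by
      have : f * E' = E' := by rw [hE', ← mul_assoc, hfj]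
      have := congrArg star this
      rwa [star_mul, hf] at this
    rw [hq]
    constructor
    · rw [mul_sub, mul_smul_comm, ← mul_assoc, hfq']
    · rw [sub_mul, smul_mul_assoc, mul_assoc, hsE'f, hq'f]

/-- Elements through which homologically trivial elements become nilpotent. -/
def NilFac {S : Type*} [Ring S] (ρ : R →+* S) (α : R) : Prop :=
  ∀ x, ρ x = 0 → IsNilpotent (α * x)

lemma isNilpotent_comm {M : Type*} [MonoidWithZero M] {a b : M} (h : IsNilpotent (a * b)) :
    IsNilpotent (b * a) := by
  obtain ⟨n, hn⟩ := h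
  refine ⟨n + 1, ?_⟩
  have h1 : (b * a) ^ (n + 1) = b * (a * b) ^ n * a := by
    clear hn
    induction n with
    | zero => simp
    | succ n ih => rw [pow_succ, ih, pow_succ]; simp only [mul_assoc]
  rw [h1, hn, mul_zero, zero_mul]

lemma NilFac.mul_left {S : Type*} [Ring S] {ρ : R →+* S} {α : R} (h : NilFac ρ α) (y : R) :
    NilFac ρ (y * α) := by
  intro x hx
  rw [mul_assoc]
  apply isNilpotent_comm
  rw [mul_assoc]
  apply h
  rw [map_mul, hx, zero_mul]

lemma NilFac.mul_right {S : Type*} [Ring S] {ρ : R →+* S} {α : R} (h : NilFac ρ α) (y : R) :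
    NilFac ρ (α * y) := by
  intro x hx
  rw [mul_assoc]
  apply h
  rw [map_mul, hx, mul_zero]

/-- The spectral idempotent. -/
lemma exists_spectral {S : Type*} [Ring S] {ρ : R →+* S} {α : R} (h : NilFac ρ α)
    (hα : ρ (α * α) = ρ α) : ∃ ε : R, ε * ε = ε ∧ ρ ε = ρ α ∧ NilFac ρ ε ∧
      (∀ a : R, a * α = 0 → a * ε = 0) ∧ (∀ a : R, α * a = 0 → ε * a = 0) ∧
      ∃ y, ε = α * y := by
  obtain ⟨M, hM⟩ := h (α * α - α) (by rw [map_sub, hα, sub_self])
  set N := 2 * M + 1 with hN
  have hc : Commute α (α * α - α) := by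
    rw [Commute, SemiconjBy]; noncomm_ring
  have h0 : α ^ N * (1 - α) ^ N = 0 := by
    have h1 : (α * (α * α - α)) ^ M = α ^ (2 * M) * (α - 1) ^ M := by
      have e1 : α * (α * α - α) = α ^ 2 * (α - 1) := by noncomm_ring
      rw [e1]
      have : Commute (α ^ 2) (α - 1) := by
        rw [Commute, SemiconjBy]; noncomm_ring
      rw [this.mul_pow, ← pow_mul]
    rw [hM] at h1
    have h2 : (1 - α) ^ N = (-1) ^ N * ((α - 1) ^ M * (α - 1) ^ (M + 1)) := by
      rw [← pow_add, show M + (M + 1) = N by omega,
        ← (Commute.neg_one_left (α - 1)).mul_pow N]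
      congr 1
      noncomm_ring
    have h3 : Commute (α ^ N) ((-1) ^ N) := (Commute.neg_one_right _).pow_right N
    rw [h2, ← mul_assoc, h3.eq, mul_assoc, hN, pow_succ' α (2 * M), mul_assoc α, ← mul_assoc (α ^ (2 * M)),
      ← h1, zero_mul, mul_zero, mul_zero]
  let y := α ^ N
  have hgs : 1 - (1 - y) ^ N = y * ∑ i ∈ Finset.range N, (1 - y) ^ i := by
    have h4 := mul_neg_geom_sum (1 - y) N
    rw [← h4, sub_sub_cancel]
  refine ⟨1 - (1 - y) ^ N, ?_, ?_, ?_, ?_, ?_, ?_⟩
  · have h5 : (1 - (1 - y) ^ N) * (1 - y) ^ N = 0 := by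
      have h6 : (1 - y) ^ N = (1 - α) ^ N * (∑ i ∈ Finset.range N, α ^ i) ^ N := by
        have h7 := mul_neg_geom_sum α N
        have h8 : Commute (1 - α) (∑ i ∈ Finset.range N, α ^ i) :=
          Commute.sum_right _ _ _ fun i _ => (((Commute.one_left α).sub_left
            (Commute.refl α)).pow_right i)
        rw [← h8.mul_pow, h7]
      have h9 : Commute y ((1 - α) ^ N) := by
        have : Commute α (1 - α) := (Commute.one_right α).sub_right (Commute.refl α)
        exact (this.pow_pow N N)
      have h10 : Commute (∑ i ∈ Finset.range N, (1 - y) ^ i) ((1 - α) ^ N) :=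
        Commute.sum_left _ _ _ fun i _ => by
          have : Commute (1 - y) ((1 - α) ^ N) := (Commute.one_left _).sub_left h9
          exact this.pow_left i
      rw [hgs, h6, ← mul_assoc, mul_assoc y, h10.eq, ← mul_assoc y, h0]
      rw [zero_mul, zero_mul]
    have h11 : (1 - (1 - y) ^ N) * (1 - (1 - y) ^ N) = (1 - (1 - y) ^ N) -
        (1 - (1 - y) ^ N) * (1 - y) ^ N := by rw [mul_sub, mul_one]
    rw [h11, h5, sub_zero]
  · have h1 : ρ y = ρ α := by
      simp only [y, hN]
      rw [map_pow]
      rw [map_mul] at hα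
      exact IsIdempotentElem.pow_succ_eq (2 * M) hα
    rw [map_sub, map_one, map_pow, map_sub, map_one, h1, hN]
    rw [map_mul] at hα
    rw [IsIdempotentElem.pow_succ_eq (2 * M) (IsIdempotentElem.one_sub hα),
      sub_sub_cancel]
  · rw [hgs]
    apply NilFac.mul_right
    simp only [y, hN]
    rw [pow_succ']
    exact h.mul_right _
  · intro a ha
    rw [hgs, ← mul_assoc]
    simp only [y, hN]
    rw [pow_succ', ← mul_assoc, ha, zero_mul, zero_mul]
  · intro a ha
    have h12 : y * a = 0 := by
      simp only [y, hN]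
      rw [pow_succ, mul_assoc, ha, mul_zero]
    have h13 : Commute y (∑ i ∈ Finset.range N, (1 - y) ^ i) :=
      Commute.sum_right _ _ _ fun i _ => by
        have : Commute y (1 - y) := (Commute.one_right y).sub_right (Commute.refl y)
        exact this.pow_right i
    rw [hgs, h13.eq, mul_assoc, h12, mul_zero]
  · refine ⟨α ^ (2 * M) * ∑ i ∈ Finset.range N, (1 - y) ^ i, ?_⟩
    rw [hgs, ← mul_assoc]
    congr 1
    simp only [y, hN]
    rw [pow_succ']

lemma rho_smul_zero {S : Type*} [Ring S] {ρ : R →+* S} (q : ℚ) {x : R} (hx : ρ x = 0) :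
    ρ (q • x) = 0 := by
  rw [← one_mul x, ← smul_mul_assoc, map_mul, hx, mul_zero]

/-- **Isotropic systems of idempotents from nilpotence**, one at a time. -/
theorem exists_isotropic_of_nil {ι : Type*} [DecidableEq ι] {S : Type*} [Ring S] (ρ : R →+* S)
    (hstar : ∀ x, ρ x = 0 → ρ (star x) = 0) (α : ι → R) (hN : ∀ i, NilFac ρ (α i))
    (h1 : ∀ i j, ρ (α i * α j) = if i = j then ρ (α i) else 0)
    (h2 : ∀ i j, ρ (α i * star (α j)) = 0) (h3 : ∀ i j, ρ (star (α i) * α j) = 0)
    (f : R) (hf : star f = f) (hfα : ∀ i, f * α i = α i) (hαf : ∀ i, α i * f = α i)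
    (s : Finset ι) :
    ∃ q : ι → R, (∀ i ∈ s, ∀ j ∈ s, q i * q j = if i = j then q i else 0) ∧
      (∀ i ∈ s, ∀ j ∈ s, q i * star (q j) = 0) ∧ (∀ i ∈ s, ∀ j ∈ s, star (q i) * q j = 0) ∧
      (∀ i ∈ s, ρ (q i) = ρ (α i)) ∧ (∀ i ∈ s, f * q i = q i ∧ q i * f = q i) := by
  induction s using Finset.induction_on with
  | empty => exact ⟨fun _ => 0, by simp, by simp, by simp, by simp, by simp⟩
  | insert a s ha ih =>
    obtain ⟨q, q1, q2, q3, q4, qf⟩ := ih
    have q5 : ∀ i ∈ s, ρ (star (q i)) = ρ (star (α i)) := by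
      intro i hi
      have := hstar (q i - α i) (by rw [map_sub, q4 i hi, sub_self])
      rwa [star_sub, map_sub, sub_eq_zero] at this
    have q6 : ∀ i ∈ s, ∀ j ∈ s, star (q i) * star (q j) = if i = j then star (q i) else 0 := by
      intro i hi j hj
      rw [← star_mul, q1 j hj i hi]
      by_cases h : i = j
      · rw [if_pos h.symm, if_pos h, h]
      · rw [if_neg h, if_neg (Ne.symm h), star_zero]
    obtain ⟨G, hG⟩ : ∃ G, G = ∑ i ∈ s, (q i + star (q i)) := ⟨_, rfl⟩
    have hsG : star G = G := by
      rw [hG, star_sum]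
      apply Finset.sum_congr rfl
      intro i _
      rw [star_add, star_star, add_comm]
    have Gq : ∀ i ∈ s, G * q i = q i := by
      intro i hi
      rw [hG, Finset.sum_mul, Finset.sum_eq_single_of_mem i hi]
      · rw [add_mul, q1 i hi i hi, if_pos rfl, q3 i hi i hi, add_zero]
      · intro j hj hji
        rw [add_mul, q1 j hj i hi, if_neg hji, q3 j hj i hi, add_zero]
    have qG : ∀ i ∈ s, q i * G = q i := by
      intro i hi
      rw [hG, Finset.mul_sum, Finset.sum_eq_single_of_mem i hi]
      · rw [mul_add, q1 i hi i hi, if_pos rfl, q2 i hi i hi, add_zero]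
      · intro j hj hji
        rw [mul_add, q1 i hi j hj, if_neg (Ne.symm hji), q2 i hi j hj, add_zero]
    have Gsq : ∀ i ∈ s, G * star (q i) = star (q i) := by
      intro i hi
      have := congrArg star (qG i hi)
      rwa [star_mul, hsG] at this
    have sqG : ∀ i ∈ s, star (q i) * G = star (q i) := by
      intro i hi
      have := congrArg star (Gq i hi)
      rwa [star_mul, hsG] at this
    have hGG : G * G = G := by
      have e1 : G * G = ∑ i ∈ s, (q i + star (q i)) * G := by rw [← Finset.sum_mul, ← hG]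
      rw [e1]
      conv_rhs => rw [hG]
      apply Finset.sum_congr rfl
      intro i hi
      rw [add_mul, qG i hi, sqG i hi]
    obtain ⟨F, hF⟩ : ∃ F, F = 1 - G := ⟨_, rfl⟩
    have hsF : star F = F := by rw [hF, star_sub, star_one, hsG]
    have hfG : f * G = G := by
      rw [hG, Finset.mul_sum]
      apply Finset.sum_congr rfl
      intro i hi
      have := congrArg star (qf i hi).2
      rw [star_mul, hf] at this
      rw [mul_add, (qf i hi).1, this]
    have hGf : G * f = G := by
      have := congrArg star hfG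
      rwa [star_mul, hf, hsG] at this
    have hFF : F * F = F := by
      rw [hF, mul_sub, mul_one, sub_mul, one_mul, hGG, sub_self, sub_zero]
    have hGF : G * F = 0 := by rw [hF, mul_sub, mul_one, hGG, sub_self]
    have hFG : F * G = 0 := by rw [hF, sub_mul, one_mul, hGG, sub_self]
    -- the new element
    obtain ⟨β, hβ⟩ : ∃ β, β = F * α a * F := ⟨_, rfl⟩
    have hρG1 : ρ (G * α a) = 0 := by
      rw [hG, Finset.sum_mul, map_sum]
      apply Finset.sum_eq_zero
      intro i hi
      have hia : i ≠ a := fun h => ha (h ▸ hi)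
      rw [add_mul, map_add, map_mul, map_mul, q4 i hi, q5 i hi, ← map_mul, ← map_mul, h1, h3,
        if_neg hia, add_zero]
    have hρG2 : ρ (α a * G) = 0 := by
      rw [hG, Finset.mul_sum, map_sum]
      apply Finset.sum_eq_zero
      intro i hi
      have hia : i ≠ a := fun h => ha (h ▸ hi)
      rw [mul_add, map_add, map_mul, map_mul, q4 i hi, q5 i hi, ← map_mul, ← map_mul, h1, h2,
        if_neg hia.symm, add_zero]
    have hρβ : ρ β = ρ (α a) := by
      have e1 : β = α a - G * α a - α a * G + G * α a * G := by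
        rw [hβ, hF]; noncomm_ring
      rw [e1, map_add, map_sub, map_sub, hρG1, hρG2, map_mul ρ (G * α a), hρG1, zero_mul]
      abel
    have hfβ : (1 - f) * β = 0 := by
      have e1 : (1 - f) * (F * α a) = 0 := by
        rw [hF, sub_mul, one_mul, sub_mul, one_mul, mul_sub, hfα, ← mul_assoc f, hfG, sub_self]
      rw [hβ, ← mul_assoc, e1, zero_mul]
    have hβf : β * (1 - f) = 0 := by
      have e1 : (α a * F) * (1 - f) = 0 := by
        rw [hF, mul_sub, mul_one, mul_sub, mul_one, sub_mul, hαf, mul_assoc, hGf, sub_self]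
      rw [hβ, mul_assoc F, mul_assoc F, e1, mul_zero]
    have hNβ : NilFac ρ β := by
      rw [hβ]
      exact ((hN a).mul_left F).mul_right F
    obtain ⟨ε, ε1, ε2, ε3, ε4, ε5, -⟩ := exists_spectral hNβ (by
      rw [map_mul, hρβ, ← map_mul, h1, if_pos rfl])
    have hGε : G * ε = 0 := ε4 G (by rw [hβ, ← mul_assoc, ← mul_assoc, hGF, zero_mul, zero_mul])
    have hεG : ε * G = 0 := ε5 G (by rw [hβ, mul_assoc, hFG, mul_zero])
    have hfε : f * ε = ε := by
      have := ε4 (1 - f) hfβ
      rw [sub_mul, one_mul, sub_eq_zero] at this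
      exact this.symm
    have hεf : ε * f = ε := by
      have := ε5 (1 - f) hβf
      rw [mul_sub, mul_one, sub_eq_zero] at this
      exact this.symm
    have hFε : F * ε = ε := by rw [hF, sub_mul, one_mul, hGε, sub_zero]
    have hεF : ε * F = ε := by rw [hF, mul_sub, mul_one, hεG, sub_zero]
    have hρε : ρ ε = ρ (α a) := by rw [ε2, hρβ]
    have hρsε : ρ (star ε) = ρ (star (α a)) := by
      have := hstar (ε - α a) (by rw [map_sub, hρε, sub_self])
      rwa [star_sub, map_sub, sub_eq_zero] at this
    have hse : ρ (star ε * ε) = 0 := by rw [map_mul, hρε, hρsε, ← map_mul, h3]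
    have hes : ρ (ε * star ε) = 0 := by rw [map_mul, hρε, hρsε, ← map_mul, h2]
    obtain ⟨p, p1, p2, p3, p4, p5⟩ := exists_isotropic (ι := Unit) (fun _ => ε)
      (by intro i j; rw [ε1, if_pos (Subsingleton.elim i j)])
      (by
        rw [Fintype.sum_unique, mul_assoc]
        exact ε3 _ hse) ρ (by rw [Fintype.sum_unique]; exact hse)
    have p5' := p5 F hsF (fun _ => hFε) (fun _ => hεF) ()
    have p6' := p5 f hf (fun _ => hfε) (fun _ => hεf) ()
    have p4' : ρ (p ()) = ρ (α a) := by
      rw [p4, Fintype.sum_unique, map_sub, rho_smul_zero _ hes, sub_zero, hρε]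
    have p1' : p () * p () = p () := by rw [p1, if_pos rfl]
    have Gp : G * p () = 0 := by
      rw [← p5'.1, ← mul_assoc, hGF, zero_mul]
    have pG : p () * G = 0 := by
      rw [← p5'.2, mul_assoc, hFG, mul_zero]
    have Gsp : G * star (p ()) = 0 := by
      have := congrArg star pG
      rwa [star_mul, hsG, star_zero] at this
    have spG : star (p ()) * G = 0 := by
      have := congrArg star Gp
      rwa [star_mul, hsG, star_zero] at this
    have cross : ∀ i ∈ s, q i * p () = 0 ∧ p () * q i = 0 ∧ q i * star (p ()) = 0 ∧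
        p () * star (q i) = 0 ∧ star (q i) * p () = 0 ∧ star (p ()) * q i = 0 := by
      intro i hi
      refine ⟨?_, ?_, ?_, ?_, ?_, ?_⟩
      · rw [← qG i hi, mul_assoc, Gp, mul_zero]
      · rw [← Gq i hi, ← mul_assoc, pG, zero_mul]
      · rw [← qG i hi, mul_assoc, Gsp, mul_zero]
      · rw [← Gsq i hi, ← mul_assoc, pG, zero_mul]
      · rw [← sqG i hi, mul_assoc, Gp, mul_zero]
      · rw [← Gq i hi, ← mul_assoc, spG, zero_mul]
    have hne : ∀ i ∈ s, i ≠ a := fun i hi h => ha (h ▸ hi)
    refine ⟨Function.update q a (p ()), ?_, ?_, ?_, ?_, ?_⟩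
    · intro i hi j hj
      rw [Finset.mem_insert] at hi hj
      rcases hi with rfl | hi <;> rcases hj with rfl | hj
      · rw [Function.update_self, p1', if_pos rfl]
      · rw [Function.update_self, Function.update_of_ne (hne j hj), if_neg (Ne.symm (hne j hj)),
          (cross j hj).2.1]
      · rw [Function.update_self, Function.update_of_ne (hne i hi), if_neg (hne i hi),
          (cross i hi).1]
      · rw [Function.update_of_ne (hne i hi), Function.update_of_ne (hne j hj), q1 i hi j hj]
    · intro i hi j hj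
      rw [Finset.mem_insert] at hi hj
      rcases hi with rfl | hi <;> rcases hj with rfl | hj
      · rw [Function.update_self, p2]
      · rw [Function.update_self, Function.update_of_ne (hne j hj), (cross j hj).2.2.2.1]
      · rw [Function.update_self, Function.update_of_ne (hne i hi), (cross i hi).2.2.1]
      · rw [Function.update_of_ne (hne i hi), Function.update_of_ne (hne j hj), q2 i hi j hj]
    · intro i hi j hj
      rw [Finset.mem_insert] at hi hj
      rcases hi with rfl | hi <;> rcases hj with rfl | hj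
      · rw [Function.update_self, p3]
      · rw [Function.update_self, Function.update_of_ne (hne j hj), (cross j hj).2.2.2.2.2]
      · rw [Function.update_self, Function.update_of_ne (hne i hi), (cross i hi).2.2.2.2.1]
      · rw [Function.update_of_ne (hne i hi), Function.update_of_ne (hne j hj), q3 i hi j hj]
    · intro i hi
      rw [Finset.mem_insert] at hi
      rcases hi with rfl | hi
      · rw [Function.update_self, p4']
      · rw [Function.update_of_ne (hne i hi), q4 i hi]
    · intro i hi
      rw [Finset.mem_insert] at hi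
      rcases hi with rfl | hi
      · rw [Function.update_self]; exact p6'
      · rw [Function.update_of_ne (hne i hi)]; exact qf i hi

end star

end Pool.Agent.R904
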