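import Pool.Agent.R904.SDDefs

/-!
# Chow-Kunneth decompositions of motives and the conjectures of Murre: definitions
-/

open CategoryTheory AlgebraicGeometry

universe u v w

namespace Pool.Agent.R904

open Pool.Agent.H914 Pool.Agent.H914.VarClass Pool.Agent.H914.VarClass.Obj Pool.Agent.W492.BB
  Pool.Agent.W550.Corr Pool.Agent.TH133

variable {k : Type u} [Field k] {𝒱 : VarClass k} {C : TheoryData.{u, v, 0} 𝒱 ℚ}
  {K : Type w} [Field K] (H : WeilTheoryData.{u, v, w} C K)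

/-- The correspondences `μ i`, which vanish for `i` outside the finite set `s`, form a Chow-Kunneth
decomposition of the motive `(Z, q)`: they are mutually orthogonal idempotents with sum `q`, and
`μ i` acts on `H^i(Z)` as `q` and on `H^m(Z)`, `m ≠ i`, as zero. -/
structure IsDec {Z : 𝒱.Obj} (q : C.A (Z.prod Z)) (s : Finset ℤ) (μ : ℤ → C.A (Z.prod Z)) :
    Prop where
  deg : ∀ i, C.Deg Z.dim (μ i)
  out : ∀ i, i ∉ s → μ i = 0
  comp_eq : ∀ i j, C.comp (μ i) (μ j) = if i = j then μ i else 0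
  sum : ∑ i ∈ s, μ i = q
  act : ∀ (i m : ℤ) (a : H.A Z), H.Deg m a →
    H.act (H.cl (μ i)) a = if m = i then H.act (H.cl q) a else 0

/-- Murre's conjectures (B) and (D) for a decomposition `M = ⊕ M_i` with projectors `μ i`:
`CH^j(M_i) = 0` for `i > 2 j`, and `CH^j(M_(2 j))_hom = 0`. -/
def MurreBD {Z : 𝒱.Obj} (μ : ℤ → C.A (Z.prod Z)) : Prop :=
  ∀ (i j : ℤ) (x : C.A Z), C.Deg j x →
    (2 * j < i → C.act (μ i) x = 0) ∧ (i = 2 * j → H.cl x = 0 → C.act (μ i) x = 0)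

/-- The motive `(Z, q)` (`q` is idempotent) is a direct summand of the Tate twist `(Y, e)(r)`: there
are `a : (Z, q) → (Y, e)(r)` and `b : (Y, e)(r) → (Z, q)` with `b ∘ a` the identity `q` of `(Z, q)`. -/
def IsSummand (C : TheoryData.{u, v, 0} 𝒱 ℚ) {Y Z : 𝒱.Obj} (e : C.A (Y.prod Y))
    (q : C.A (Z.prod Z)) (r : ℤ) : Prop :=
  C.comp q q = q ∧ ∃ (a : C.A (Z.prod Y)) (b : C.A (Y.prod Z)), C.Deg ((Z.dim : ℤ) + r) a ∧
    C.Deg ((Y.dim : ℤ) - r) b ∧ C.comp (C.comp q a) e = a ∧ C.comp (C.comp e b) q = b ∧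
    C.comp a b = q

end Pool.Agent.R904
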