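import Pool.Agent.TH133.Defs

/-!
# Nilpotent correspondences: definitions
-/

open CategoryTheory AlgebraicGeometry

universe u v w

namespace Pool.Agent.R904

open Pool.Agent.H914 Pool.Agent.H914.VarClass Pool.Agent.H914.VarClass.Obj Pool.Agent.W492.BB
  Pool.Agent.W550.Corr Pool.Agent.TH133

variable {k : Type u} [Field k] {𝒱 : VarClass k}

/-- The powers of a self-correspondence under composition. -/
noncomputable def cpow (C : TheoryData.{u, v, 0} 𝒱 ℚ) {X : 𝒱.Obj} (γ : C.A (X.prod X)) :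
    ℕ → C.A (X.prod X)
  | 0 => dg C X
  | n + 1 => C.comp (cpow C γ n) γ

/-- A self-correspondence is nilpotent. -/
def IsNil (C : TheoryData.{u, v, 0} 𝒱 ℚ) {X : 𝒱.Obj} (γ : C.A (X.prod X)) : Prop :=
  ∃ n, cpow C γ n = 0

variable {C : TheoryData.{u, v, 0} 𝒱 ℚ} {K : Type w} [Field K] (H : WeilTheoryData.{u, v, w} C K)

/-- `(Y, q)` is a Chow motive (`q` is an idempotent self-correspondence of degree zero of `Y`) and
its homologically trivial endomorphisms `q ∘ γ ∘ q` are nilpotent. -/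
def NilMotive {Y : 𝒱.Obj} (q : C.A (Y.prod Y)) : Prop :=
  C.Deg Y.dim q ∧ C.comp q q = q ∧ ∀ γ : C.A (Y.prod Y), C.Deg Y.dim γ → H.cl γ = 0 →
    IsNil C (C.comp (C.comp q γ) q)

/-- The self-correspondence `α` of `X` factors through a Tate twist `(Y, q)(r)` of a Chow motive whose
homologically trivial endomorphisms are nilpotent: `α = b ∘ q ∘ a` with `a ∈ CH^(dim X + r)(X × Y)`
and `b ∈ CH^(dim Y - r)(Y × X)`. -/
def FactorsNil {X : 𝒱.Obj} (α : C.A (X.prod X)) : Prop :=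
  ∃ (Y : 𝒱.Obj) (q : C.A (Y.prod Y)) (r : ℤ) (a : C.A (X.prod Y)) (b : C.A (Y.prod X)),
    NilMotive H q ∧ C.Deg ((X.dim : ℤ) + r) a ∧ C.Deg ((Y.dim : ℤ) - r) b ∧
      α = C.comp (C.comp a q) b

/-- `α ∘ γ` is nilpotent for all homologically trivial self-correspondences `γ` of degree zero. -/
def NilTransit {X : 𝒱.Obj} (α : C.A (X.prod X)) : Prop :=
  ∀ γ : C.A (X.prod X), C.Deg X.dim γ → H.cl γ = 0 → IsNil C (C.comp γ α)

end Pool.Agent.R904
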