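import Pool.Agent.R904.SDBase
import Pool.Agent.R904.SDDefs
import Pool.Agent.Y110.Kf

/-!
# Nilpotence and self-dual Chow-Kunneth decompositions
-/

open CategoryTheory AlgebraicGeometry

universe u v w

namespace Pool.Agent.R904

open Pool.Agent.H914 Pool.Agent.H914.VarClass Pool.Agent.H914.VarClass.Obj Pool.Agent.W492.BB
  Pool.Agent.W550.Corr Pool.Agent.TH133 Pool.Agent.TH829.Kim

set_option linter.unusedSectionVars false

variable {k : Type u} [Field k] {𝒱 : VarClass k}

variable {C : TheoryData.{u, v, 0} 𝒱 ℚ} [hC : IsChowProj C] {K : Type w} [Field K]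
  {H : WeilTheoryData.{u, v, w} C K} [hH : IsWeilProj H] {X Y Z W : 𝒱.Obj}

section chow

include hC

lemma cpow_eq (γ : Cor C X) (n : ℕ) : (cpow C (X := X) γ n : Cor C X) = γ ^ n := by
  induction n with
  | zero => rw [pow_zero]; rfl
  | succ n ih =>
    rw [pow_succ', cor_mul, ← ih]
    rfl

lemma isNil_iff (γ : Cor C X) : IsNil C (X := X) γ ↔ IsNilpotent γ := by
  unfold IsNil IsNilpotent
  simp_rw [← cpow_eq]
  exact Iff.rfl

lemma isNilpotent_cor0 (γ : cor0 C X) : IsNilpotent γ ↔ IsNil C (X := X) (γ : Cor C X) := by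
  rw [isNil_iff]
  constructor
  · rintro ⟨n, hn⟩
    exact ⟨n, by rw [← SubmonoidClass.coe_pow, hn]; rfl⟩
  · rintro ⟨n, hn⟩
    exact ⟨n, Subtype.ext (by rw [SubmonoidClass.coe_pow, hn]; rfl)⟩

/-- Nilpotence passes from `a ∘ b` to `b ∘ a`, also for correspondences between different
varieties. -/
lemma isNil_swap {a : C.A (X.prod Y)} {b : C.A (Y.prod X)} (h : IsNil C (C.comp b a)) :
    IsNil C (C.comp a b) := by
  obtain ⟨n, hn⟩ := h
  refine ⟨n + 1, ?_⟩
  have h1 : cpow C (C.comp a b) (n + 1) = C.comp a (C.comp (cpow C (C.comp b a) n) b) := by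
    clear hn
    induction n with
    | zero =>
      change C.comp (dg C X) (C.comp a b) = C.comp a (C.comp (dg C Y) b)
      rw [dg_comp, dg_comp]
    | succ n ih =>
      have e1 : cpow C (C.comp a b) (n + 1 + 1) =
        C.comp (cpow C (C.comp a b) (n + 1)) (C.comp a b) := rfl
      have e2 : cpow C (C.comp b a) (n + 1) = C.comp (cpow C (C.comp b a) n) (C.comp b a) := rfl
      rw [e1, ih, e2]
      simp only [comp_assoc]
  rw [h1, hn, zero_comp, comp_zero]

end chow

include hC hH

lemma nilFac_iff (α : cor0 C X) : NilFac (rho H X) α ↔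
    NilTransit H (X := X) (α : Cor C X) := by
  constructor
  · intro h γ hγ hcl
    have h1 := h ⟨γ, hγ⟩ (rho_eq_zero_iff.2 hcl)
    rw [isNilpotent_cor0] at h1
    exact h1
  · intro h x hx
    rw [isNilpotent_cor0]
    exact h x.1 x.2 (rho_eq_zero_iff.1 hx)

/-- Correspondences factoring through a motive with nilpotent homologically trivial
endomorphisms. -/
theorem nilTransit_of_factor {q : C.A (Y.prod Y)} (hq : NilMotive H q) {r : ℤ}
    {a : C.A (X.prod Y)} {b : C.A (Y.prod X)} (ha : a ∈ C.gr (X.prod Y) (X.dim + r))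
    (hb : b ∈ C.gr (Y.prod X) (Y.dim + -r)) : NilTransit H (C.comp (C.comp a q) b) := by
  intro γ hγ hcl
  obtain ⟨hq1, hq2, hq3⟩ := hq
  have e1 : C.comp γ (C.comp (C.comp a q) b) = C.comp (C.comp (C.comp γ a) q) b := by
    simp only [comp_assoc]
  rw [e1]
  apply isNil_swap
  -- now `b` then `γ a` then `q`
  have e2 : C.comp b (C.comp (C.comp γ a) q) = C.comp (C.comp b (C.comp γ a)) q := by
    simp only [comp_assoc]
  rw [e2]
  have h1 : C.comp b (C.comp γ a) ∈ C.gr (Y.prod Y) Y.dim := by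
    have hγ' : γ ∈ C.gr (X.prod X) (X.dim + 0) := by rw [add_zero]; exact hγ
    have h2 := comp_mem C hb (comp_mem C hγ' ha)
    rwa [show (-r + (0 + r) : ℤ) = 0 by ring, add_zero] at h2
  have h3 : H.cl (C.comp b (C.comp γ a)) = 0 := by
    rw [cl_comp, cl_comp, hcl, zero_comp, comp_zero]
  have h4 := hq3 _ h1 h3
  -- `G q = (G q) q`, swap
  have e3 : C.comp (C.comp b (C.comp γ a)) q =
      C.comp (C.comp (C.comp b (C.comp γ a)) q) q := by
    rw [comp_assoc C (C.comp b (C.comp γ a)) q q, hq2]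
  rw [e3]
  apply isNil_swap
  rw [← comp_assoc]
  exact h4

/-- Finite-dimensionality in the sense of Kimura. -/
theorem nilMotive_of_kimura (h : IsKimuraFinite C (ratFam C) Y) {q : C.A (Y.prod Y)}
    (hq : q ∈ C.gr (Y.prod Y) Y.dim) (hqq : C.comp q q = q) : NilMotive H q := by
  refine ⟨hq, hqq, fun γ hγ hcl => ?_⟩
  have h1 : C.comp (C.comp q γ) q ∈ C.gr (Y.prod Y) Y.dim := comp_mem0 C (comp_mem0 C hq hγ) hq
  have h2 := Pool.Agent.Y110.isNilpotent_of_kimura (H := H) h
    (x := ofA (C.comp (C.comp q γ) q) h1) (by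
      rw [toA_ofA, cl_comp, cl_comp, hcl, comp_zero, zero_comp])
  exact (isNilpotent_cor0 _).1 h2

/-- **Self-dual Chow-Kunneth decompositions from nilpotence below the middle degree.** -/
theorem selfDual_of_nilTransit {N : ℕ} (α : Fin N → C.A (X.prod X)) (δ : Fin N → ℕ)
    (hδ : ∀ i, δ i < X.dim) (hα : ∀ i, C.Deg X.dim (α i)) (hN : ∀ i, NilTransit H (α i))
    (h1 : ∀ i j (x : H.A X), H.act (H.cl (α i)) (H.act (H.cl (α j)) x) =
      if i = j then H.act (H.cl (α i)) x else 0)
    (h2 : ∀ i (m : ℤ) (x : H.A X), H.Deg m x → m ≠ δ i → H.act (H.cl (α i)) x = 0)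
    (h3 : ∀ (m : ℤ) (x : H.A X), H.Deg m x → m < X.dim → H.act (H.cl (∑ i, α i)) x = x) :
    ∃ π, IsCK H X π ∧ IsSelfDual C π := by
  refine selfDual_of_nilFac (H := H) (fun i => (⟨α i, hα i⟩ : cor0 C X)) δ hδ ?_ ?_ ?_ ?_
  · intro i
    rw [nilFac_iff]
    exact hN i
  · intro i j
    apply LinearMap.ext
    intro x
    rw [map_mul, Module.End.mul_apply]
    have := h1 i j x
    change H.act (H.cl (α i)) (H.act (H.cl (α j)) x) = _
    rw [this]
    split_ifs with h
    · rfl
    · rfl
  · intro i m hm x hx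
    exact h2 i m x hx hm
  · intro m hm x hx
    have := h3 m x hx hm
    have e1 : ((∑ i, (⟨α i, hα i⟩ : cor0 C X) : cor0 C X) : Cor C X) =
        (∑ i, α i : C.A (X.prod X)) := by
      rw [AddSubmonoidClass.coe_finsetSum]; rfl
    rw [rho_apply, e1]
    exact this

lemma act_comp_H (Γ : C.A (X.prod Y)) (Δ : C.A (Y.prod Z)) (a : H.A X) :
    H.act (H.cl (C.comp Γ Δ)) a = H.act (H.cl Δ) (H.act (H.cl Γ) a) := actH_comp H Γ Δ a

lemma cl_graph (f : X ⟶ Y) : H.cl (C.graph f) = H.graph f := by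
  unfold TheoryData.graph
  rw [H.cl_push, map_one]

lemma cl_cograph (f : X ⟶ Y) : H.cl (C.cograph f) = H.cograph f := by
  unfold TheoryData.cograph
  rw [H.cl_push, map_one]

lemma cl_mulCorr (c : C.A X) : H.cl (C.mulCorr c) = H.mulCorr (H.cl c) := by
  unfold TheoryData.mulCorr
  rw [H.cl_push]

/-- **Descent along dominant morphisms.** -/
theorem selfDual_of_dominant (f : Y ⟶ X) {c : C.A Y} {N : ℚ}
    (hc : C.Deg ((Y.dim : ℤ) - X.dim) c) (hN : N ≠ 0) (hf : C.push f c = N • 1)
    (q : ℕ → C.A (Y.prod Y)) (hq : ∀ m < X.dim, NilMotive H (q m))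
    (hq' : ∀ m < X.dim, ∀ (l : ℤ) (a : H.A Y), H.Deg l a →
      H.act (H.cl (q m)) a = if l = m then a else 0) :
    ∃ π, IsCK H X π ∧ IsSelfDual C π := by
  obtain ⟨c', hc'⟩ : ∃ c', c' = N⁻¹ • c := ⟨_, rfl⟩
  have hc'm : c' ∈ C.gr Y ((Y.dim : ℤ) - X.dim) := by
    rw [hc']; exact Submodule.smul_mem _ _ hc
  have hf' : C.push f c' = 1 := by
    rw [hc', map_smul, hf, smul_smul, inv_mul_cancel₀ hN, one_smul]
  have ha : C.cograph f ∈ C.gr (X.prod Y) (X.dim + 0) := by
    have h := C.push_mem (Obj.lift f (𝟙 Y)) (C.one_mem Y)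
    have e1 : (0 : ℤ) + 1 * (((X.prod Y).dim : ℤ) - (Y.dim : ℤ)) = X.dim + 0 := by
      rw [dim_prod]; push_cast; ring
    rwa [e1] at h
  have hm : C.mulCorr c' ∈ C.gr (Y.prod Y) (Y.dim + ((Y.dim : ℤ) - X.dim)) := by
    have h := C.push_mem (Obj.lift (𝟙 Y) (𝟙 Y)) hc'm
    have e1 : ((Y.dim : ℤ) - X.dim) + 1 * (((Y.prod Y).dim : ℤ) - (Y.dim : ℤ)) =
        Y.dim + ((Y.dim : ℤ) - X.dim) := by
      rw [dim_prod]; push_cast; ring
    rwa [e1] at h
  have hg : C.graph f ∈ C.gr (Y.prod X) (Y.dim + ((X.dim : ℤ) - Y.dim)) := by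
    have h := C.push_mem (Obj.lift (𝟙 Y) f) (C.one_mem Y)
    have e1 : (0 : ℤ) + 1 * (((Y.prod X).dim : ℤ) - (Y.dim : ℤ)) =
        Y.dim + ((X.dim : ℤ) - Y.dim) := by
      rw [dim_prod]; push_cast; ring
    rwa [e1] at h
  have hb : C.comp (C.mulCorr c') (C.graph f) ∈ C.gr (Y.prod X) (Y.dim + -0) := by
    have h := comp_mem C hm hg
    rwa [show (((Y.dim : ℤ) - X.dim) + ((X.dim : ℤ) - Y.dim)) = -0 by ring] at h
  have hact : ∀ m < X.dim, ∀ (l : ℤ) (x : H.A X), x ∈ H.gr X l →
      H.act (H.cl (C.comp (C.comp (C.cograph f) (q m)) (C.comp (C.mulCorr c') (C.graph f)))) x =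
        if l = m then x else 0 := by
    intro m hm l x hx
    rw [act_comp_H, act_comp_H, act_comp_H, cl_cograph, cl_graph, cl_mulCorr, H.act_cograph,
      hq' m hm l _ (H.pull_mem f hx), H.act_mulCorr, H.act_graph]
    split_ifs with h
    · rw [H.proj_right, ← H.cl_push, hf', map_one, one_mul]
    · rw [mul_zero, map_zero]
  refine selfDual_of_nilTransit (H := H) (X := X) (N := X.dim)
    (fun i => C.comp (C.comp (C.cograph f) (q i)) (C.comp (C.mulCorr c') (C.graph f)))
    (fun i => i) (fun i => i.2) ?_ ?_ ?_ ?_ ?_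
  · intro i
    have h0 : q i ∈ C.gr (Y.prod Y) (Y.dim + 0) := by rw [add_zero]; exact (hq i i.2).1
    have h := comp_mem C (comp_mem C ha h0) hb
    rwa [show ((0 : ℤ) + 0 + -0) = 0 by ring, add_zero] at h
  · intro i
    exact nilTransit_of_factor (hq i i.2) ha hb
  · intro i j x
    have h1 : ∀ (i j : Fin X.dim), H.actL (H.cl (C.comp (C.comp (C.cograph f) (q i))
        (C.comp (C.mulCorr c') (C.graph f)))) ∘ₗ H.actL (H.cl (C.comp (C.comp (C.cograph f) (q j))
        (C.comp (C.mulCorr c') (C.graph f)))) = if i = j then H.actL (H.cl (C.comp (C.comp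
          (C.cograph f) (q i)) (C.comp (C.mulCorr c') (C.graph f)))) else 0 := by
      intro i j
      apply ext_gr H
      intro l y hy
      rw [LinearMap.comp_apply, TheoryData.actL_apply, TheoryData.actL_apply, hact j j.2 l y hy]
      by_cases hij : i = j
      · subst hij
        rw [if_pos rfl, TheoryData.actL_apply, hact i i.2 l y hy]
        split_ifs with hl
        · rw [hact i i.2 l y hy, if_pos hl]
        · exact TheoryData.act_map_zero H.toTheoryData _
      · rw [if_neg hij, LinearMap.zero_apply]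
        split_ifs with hl
        · rw [hact i i.2 l y hy, if_neg]
          intro hl'
          apply hij
          apply Fin.ext
          exact_mod_cast hl'.symm.trans hl
        · exact TheoryData.act_map_zero H.toTheoryData _
    have h2 := LinearMap.congr_fun (h1 i j) x
    rw [LinearMap.comp_apply, TheoryData.actL_apply, TheoryData.actL_apply] at h2
    rw [h2]
    split_ifs <;> rfl
  · intro i m x hx hm
    rw [hact i i.2 m x hx, if_neg hm]
  · intro m x hx hm
    rw [map_sum, act_sum]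
    by_cases hx0 : x = 0
    · subst hx0
      apply Finset.sum_eq_zero
      intro i _
      exact TheoryData.act_map_zero H.toTheoryData _
    have h0 := nonneg_of_mem H hx hx0
    obtain ⟨m, rfl⟩ := Int.eq_ofNat_of_zero_le h0
    rw [Finset.sum_eq_single (⟨m, by exact_mod_cast hm⟩ : Fin X.dim)]
    · rw [hact m (by exact_mod_cast hm) m x hx, if_pos rfl]
    · intro j _ hj
      rw [hact j j.2 m x hx, if_neg]
      intro h
      apply hj
      apply Fin.ext
      exact_mod_cast h.symm
    · intro h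
      exact absurd (Finset.mem_univ _) h

/-- **The case of complete intersections**: a morphism `f : X → Y` such that `f^*` is surjective on
the cohomology below the middle degree. -/
theorem selfDual_of_lefschetz (f : X ⟶ Y) (q ψ : ℕ → C.A (Y.prod Y))
    (hsurj : ∀ m < X.dim, ∀ x : H.A X, H.Deg m x → ∃ y : H.A Y, H.Deg m y ∧ H.pull f y = x)
    (hq : ∀ m < X.dim, NilMotive H (q m))
    (hq' : ∀ m < X.dim, ∀ (l : ℤ) (a : H.A Y), H.Deg l a →
      H.act (H.cl (q m)) a = if l = m then a else 0)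
    (hψ : ∀ m < X.dim, C.Deg (X.dim : ℤ) (ψ m))
    (hψ' : ∀ m < X.dim, ∀ y : H.A Y, H.Deg m y →
      H.act (H.cl (ψ m)) (H.push f (H.pull f y)) = y) :
    ∃ π, IsCK H X π ∧ IsSelfDual C π := by
  have hb : C.cograph f ∈ C.gr (Y.prod X) (Y.dim + -0) := by
    have h := C.push_mem (Obj.lift f (𝟙 X)) (C.one_mem X)
    have e1 : (0 : ℤ) + 1 * (((Y.prod X).dim : ℤ) - (X.dim : ℤ)) = Y.dim + -0 := by
      rw [dim_prod]; push_cast; ring
    rwa [e1] at h
  have hg : C.graph f ∈ C.gr (X.prod Y) (X.dim + ((Y.dim : ℤ) - X.dim)) := by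
    have h := C.push_mem (Obj.lift (𝟙 X) f) (C.one_mem X)
    have e1 : (0 : ℤ) + 1 * (((X.prod Y).dim : ℤ) - (X.dim : ℤ)) =
        X.dim + ((Y.dim : ℤ) - X.dim) := by
      rw [dim_prod]; push_cast; ring
    rwa [e1] at h
  have hψm : ∀ m < X.dim, ψ m ∈ C.gr (Y.prod Y) (Y.dim + ((X.dim : ℤ) - Y.dim)) := by
    intro m hm
    have h := hψ m hm
    rwa [show (X.dim : ℤ) = Y.dim + ((X.dim : ℤ) - Y.dim) by ring] at h
  have ha : ∀ m < X.dim, C.comp (C.graph f) (ψ m) ∈ C.gr (X.prod Y) (X.dim + 0) := by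
    intro m hm
    have h := comp_mem C hg (hψm m hm)
    rwa [show (((Y.dim : ℤ) - X.dim) + ((X.dim : ℤ) - Y.dim)) = 0 by ring] at h
  have hact : ∀ m < X.dim, ∀ (l : ℤ) (x : H.A X), x ∈ H.gr X l →
      H.act (H.cl (C.comp (C.comp (C.comp (C.graph f) (ψ m)) (q m)) (C.cograph f))) x =
        if l = m then x else 0 := by
    intro m hm l x hx
    have hx' : H.act (H.cl (C.comp (C.graph f) (ψ m))) x ∈ H.gr Y l := by
      have := Pool.Agent.W492.BB.actH_mem H (ha m hm) hx
      rwa [mul_zero, add_zero] at this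
    rw [act_comp_H, act_comp_H, hq' m hm l _ hx']
    split_ifs with h
    · obtain ⟨y, hy, rfl⟩ := hsurj m hm x (h ▸ hx)
      rw [act_comp_H, cl_graph, cl_cograph, H.act_graph, hψ' m hm y hy, H.act_cograph]
    · exact TheoryData.act_map_zero H.toTheoryData _
  refine selfDual_of_nilTransit (H := H) (X := X) (N := X.dim)
    (fun i => C.comp (C.comp (C.comp (C.graph f) (ψ i)) (q i)) (C.cograph f))
    (fun i => i) (fun i => i.2) ?_ ?_ ?_ ?_ ?_
  · intro i
    have h0 : q i ∈ C.gr (Y.prod Y) (Y.dim + 0) := by rw [add_zero]; exact (hq i i.2).1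
    have h := comp_mem C (comp_mem C (ha i i.2) h0) hb
    rwa [show ((0 : ℤ) + 0 + -0) = 0 by ring, add_zero] at h
  · intro i
    exact nilTransit_of_factor (hq i i.2) (ha i i.2) hb
  · intro i j x
    have h1 : ∀ (i j : Fin X.dim), H.actL (H.cl (C.comp (C.comp (C.comp (C.graph f) (ψ i)) (q i))
        (C.cograph f))) ∘ₗ H.actL (H.cl (C.comp (C.comp (C.comp (C.graph f) (ψ j)) (q j))
        (C.cograph f))) = if i = j then H.actL (H.cl (C.comp (C.comp (C.comp (C.graph f) (ψ i))
          (q i)) (C.cograph f))) else 0 := by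
      intro i j
      apply ext_gr H
      intro l y hy
      rw [LinearMap.comp_apply, TheoryData.actL_apply, TheoryData.actL_apply, hact j j.2 l y hy]
      by_cases hij : i = j
      · subst hij
        rw [if_pos rfl, TheoryData.actL_apply, hact i i.2 l y hy]
        split_ifs with hl
        · rw [hact i i.2 l y hy, if_pos hl]
        · exact TheoryData.act_map_zero H.toTheoryData _
      · rw [if_neg hij, LinearMap.zero_apply]
        split_ifs with hl
        · rw [hact i i.2 l y hy, if_neg]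
          intro hl'
          apply hij
          apply Fin.ext
          exact_mod_cast hl'.symm.trans hl
        · exact TheoryData.act_map_zero H.toTheoryData _
    have h2 := LinearMap.congr_fun (h1 i j) x
    rw [LinearMap.comp_apply, TheoryData.actL_apply, TheoryData.actL_apply] at h2
    rw [h2]
    split_ifs <;> rfl
  · intro i m x hx hm
    rw [hact i i.2 m x hx, if_neg hm]
  · intro m x hx hm
    rw [map_sum, act_sum]
    by_cases hx0 : x = 0
    · subst hx0
      apply Finset.sum_eq_zero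
      intro i _
      exact TheoryData.act_map_zero H.toTheoryData _
    have h0 := nonneg_of_mem H hx hx0
    obtain ⟨m, rfl⟩ := Int.eq_ofNat_of_zero_le h0
    rw [Finset.sum_eq_single (⟨m, by exact_mod_cast hm⟩ : Fin X.dim)]
    · rw [hact m (by exact_mod_cast hm) m x hx, if_pos rfl]
    · intro j _ hj
      rw [hact j j.2 m x hx, if_neg]
      intro h
      apply hj
      apply Fin.ext
      exact_mod_cast h.symm
    · intro h
      exact absurd (Finset.mem_univ _) h

end Pool.Agent.R904
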