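import Pool.Agent.R904.Summand
import Pool.Agent.R904.MDefs
import Pool.Agent.R904.SDNil

/-!
# Chow-Kunneth decompositions of direct summands
-/

open CategoryTheory AlgebraicGeometry

universe u v w

namespace Pool.Agent.R904

open Pool.Agent.H914 Pool.Agent.H914.VarClass Pool.Agent.H914.VarClass.Obj Pool.Agent.W492.BB
  Pool.Agent.W550.Corr Pool.Agent.TH133 Pool.Agent.TH829.Kim

set_option linter.unusedSectionVars false

variable {k : Type u} [Field k] {𝒱 : VarClass k}

variable {C : TheoryData.{u, v, 0} 𝒱 ℚ} [hC : IsChowProj C] {K : Type w} [Field K]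
  {H : WeilTheoryData.{u, v, w} C K} [hH : IsWeilProj H] {X Y Z W : 𝒱.Obj}

include hC hH

lemma rho_toA' (a : cor0 C X) (x : H.A X) : rho H X a x = H.act (H.cl (toA a)) x := rfl

lemma IsDec.idem {e : C.A (Y.prod Y)} {s : Finset ℤ} {π : ℤ → C.A (Y.prod Y)}
    (hπ : IsDec H e s π) : C.comp e e = e := by
  rw [← hπ.sum, comp_sum]
  apply Finset.sum_congr rfl
  intro i hi
  rw [sum_comp]
  simp_rw [hπ.comp_eq]
  rw [Finset.sum_eq_single_of_mem i hi]
  · rw [if_pos rfl]
  · intro j _ hj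
    rw [if_neg hj]

/-- **Direct summands of motives with at most one unknown piece.** -/
theorem exists_isDec_summand {e : C.A (Y.prod Y)} {s : Finset ℤ} {π : ℤ → C.A (Y.prod Y)}
    (hπ : IsDec H e s π) (w : ℤ) (hnil : ∀ i, i ≠ w → NilMotive H (π i))
    {q : C.A (Z.prod Z)} {r : ℤ} (hq : IsSummand C e q r) :
    ∃ (s' : Finset ℤ) (μ : ℤ → C.A (Z.prod Z)), IsDec H q s' μ ∧
      ∀ m, ∃ (u : C.A (Z.prod Y)) (v : C.A (Y.prod Z)), C.Deg ((Z.dim : ℤ) + r) u ∧
        C.Deg ((Y.dim : ℤ) - r) v ∧ μ m = C.comp (C.comp u (π (m + 2 * r))) v := by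
  classical
  obtain ⟨hqq, a, b, ha, hb, hqa, hbq, hab⟩ := hq
  have ha' : a ∈ C.gr (Z.prod Y) (Z.dim + r) := ha
  have hb' : b ∈ C.gr (Y.prod Z) (Y.dim + -r) := by rw [← sub_eq_add_neg]; exact hb
  have hπ0 : ∀ i, π i ∈ C.gr (Y.prod Y) (Y.dim + 0) := fun i => by
    rw [add_zero]; exact hπ.deg i
  have hqa1 : C.comp q a = a := by
    conv_lhs => rw [← hqa]
    rw [← comp_assoc, ← comp_assoc, hqq, hqa]
  have hae : C.comp a e = a := by
    conv_lhs => rw [← hqa]
    rw [comp_assoc, hπ.idem, hqa]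
  have hbq1 : C.comp b q = b := by
    conv_lhs => rw [← hbq]
    rw [comp_assoc, hqq, hbq]
  have hqm : q ∈ C.gr (Z.prod Z) Z.dim := by
    have h := comp_mem C ha' hb'
    rwa [hab, add_neg_cancel, add_zero] at h
  obtain ⟨Q, hQ⟩ : ∃ Q : cor0 C Z, toA Q = q := ⟨ofA q hqm, rfl⟩
  have hαm : ∀ m, C.comp (C.comp a (π (m + 2 * r))) b ∈ C.gr (Z.prod Z) Z.dim := by
    intro m
    have h := comp_mem C (comp_mem C ha' (hπ0 (m + 2 * r))) hb'
    rwa [show (r + 0 + -r) = 0 by ring, add_zero] at h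
  obtain ⟨α, hα⟩ : ∃ α : ℤ → cor0 C Z, ∀ m, toA (α m) = C.comp (C.comp a (π (m + 2 * r))) b :=
    ⟨fun m => ofA _ (hαm m), fun m => rfl⟩
  have hQQ : Q * Q = Q := by
    apply toA_inj
    rw [toA_mul, hQ, hqq]
  have hact : ∀ m (l : ℤ) (x : H.A Z), x ∈ H.gr Z l → rho H Z (α m) x =
      if l = m then rho H Z Q x else 0 := by
    intro m l x hx
    rw [rho_toA', hα, actH_comp, actH_comp]
    have h1 : H.act (H.cl a) x ∈ H.gr Y (l + 2 * r) := Pool.Agent.W492.BB.actH_mem H ha' hx
    rw [hπ.act _ _ _ h1]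
    by_cases h : l = m
    · rw [if_pos (by rw [h]), if_pos h, rho_toA', hQ, ← actH_comp H a e x, hae, ← actH_comp, hab]
    · rw [if_neg (by omega), if_neg h, TheoryData.act_map_zero]
  have hQρ : ∀ x, rho H Z Q (rho H Z Q x) = rho H Z Q x := by
    intro x
    rw [← Module.End.mul_apply, ← map_mul, hQQ]
  have hN : ∀ m, m ≠ w - 2 * r → NilFac (rho H Z) (α m) := by
    intro m hm
    rw [nilFac_iff]
    have h := nilTransit_of_factor (hnil (m + 2 * r) (by omega)) ha' hb'
    rw [← hα] at h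
    exact h
  have hα0 : ∀ m, m + 2 * r ∉ s → α m = 0 := by
    intro m hm
    apply toA_inj
    rw [hα, hπ.out _ hm, comp_zero, zero_comp, map_zero]
  obtain ⟨s', hs'⟩ : ∃ s' : Finset ℤ, s' = insert (w - 2 * r) (s.image fun i => i - 2 * r) :=
    ⟨_, rfl⟩
  have hsum : ∑ m ∈ s', α m = Q := by
    have h1 : ∑ m ∈ s.image (fun i => i - 2 * r), α m = Q := by
      rw [Finset.sum_image (fun i _ j _ h => by
        have h' : i - 2 * r = j - 2 * r := h
        omega)]
      apply toA_inj
      rw [map_sum, hQ, ← hab]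
      simp_rw [hα, sub_add_cancel]
      rw [← sum_comp, ← comp_sum, hπ.sum, hae]
    rw [hs']
    by_cases h : w - 2 * r ∈ s.image (fun i => i - 2 * r)
    · rw [Finset.insert_eq_of_mem h, h1]
    · rw [Finset.sum_insert h, h1, hα0, zero_add]
      intro h2
      apply h
      rw [Finset.mem_image]
      exact ⟨_, h2, by ring⟩
  obtain ⟨μ, m1, m2, m3, m4⟩ := exists_summand_system (ρ := rho H Z) s' (w - 2 * r)
    (by rw [hs']; exact Finset.mem_insert_self _ _) Q hQQ α (by
      intro m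
      apply toA_inj
      rw [toA_mul, hα, hQ, comp_assoc, hbq1]) (by
      intro m
      apply toA_inj
      rw [toA_mul, hα, hQ, ← comp_assoc, ← comp_assoc, hqa1]) hsum hN (by
      intro i j
      apply ext_gr H
      intro l x hx
      rw [map_mul, Module.End.mul_apply, hact j l x hx]
      by_cases hij : i = j
      · rw [if_pos hij, hact i l x hx, hij]
        split_ifs with hl
        · rw [hact j l _ (rho_mem Q hx), if_pos hl, hQρ]
        · rw [map_zero]
      · rw [if_neg hij, LinearMap.zero_apply]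
        split_ifs with hl
        · rw [hact i l _ (rho_mem Q hx), if_neg]
          intro hl'
          exact hij (hl'.symm.trans hl)
        · rw [map_zero])
  refine ⟨s', fun m => toA (if m ∈ s' then μ m else 0), ⟨?_, ?_, ?_, ?_, ?_⟩, ?_⟩
  · intro i
    exact toA_mem _
  · intro i hi
    rw [if_neg hi, map_zero]
  · intro i j
    rw [← toA_mul]
    by_cases hi : i ∈ s'
    · by_cases hj : j ∈ s'
      · rw [if_pos hi, if_pos hj, m1 j hj i hi]
        by_cases h : i = j
        · rw [if_pos h.symm, if_pos h, h]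
        · rw [if_neg h, if_neg (Ne.symm h), map_zero]
      · have hij : i ≠ j := fun h => hj (h ▸ hi)
        rw [if_neg hj, zero_mul, if_neg hij, map_zero]
    · rw [if_neg hi, mul_zero]
      split_ifs <;> exact map_zero _
  · rw [← map_sum, ← hQ, ← m2]
    congr 1
    apply Finset.sum_congr rfl
    intro i hi
    rw [if_pos hi]
  · intro i m x hx
    rw [← rho_toA', ← hQ, ← rho_toA']
    by_cases hi : i ∈ s'
    · rw [if_pos hi, m3 i hi, hact i m x hx]
    · rw [if_neg hi, map_zero, LinearMap.zero_apply]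
      have h0 : α i = 0 := by
        apply hα0
        intro h2
        apply hi
        rw [hs']
        apply Finset.mem_insert_of_mem
        rw [Finset.mem_image]
        exact ⟨_, h2, by ring⟩
      have h1 := hact i m x hx
      rw [h0, map_zero, LinearMap.zero_apply] at h1
      exact h1
  · intro m
    by_cases hm : m ∈ s'
    · obtain ⟨x, y, hxy⟩ := m4 m hm
      refine ⟨C.comp (toA y) a, C.comp b (toA x), ?_, ?_, ?_⟩
      · have hy : toA y ∈ C.gr (Z.prod Z) (Z.dim + 0) := by rw [add_zero]; exact toA_mem y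
        have h := comp_mem C hy ha'
        rwa [zero_add] at h
      · have hx : toA x ∈ C.gr (Z.prod Z) (Z.dim + 0) := by rw [add_zero]; exact toA_mem x
        have h := comp_mem C hb' hx
        rwa [add_zero, ← sub_eq_add_neg] at h
      · dsimp only
        rw [if_pos hm, hxy, toA_mul, toA_mul, hα]
        simp only [comp_assoc]
    · refine ⟨0, 0, Submodule.zero_mem _, Submodule.zero_mem _, ?_⟩
      dsimp only
      rw [if_neg hm, map_zero, comp_zero]

/-- Murre's conjectures (B) and (D) are inherited by such decompositions. -/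
theorem murreBD_of_factor {π : ℤ → C.A (Y.prod Y)} (h : MurreBD H π) {μ : ℤ → C.A (Z.prod Z)}
    {r : ℤ} (hμ : ∀ m, ∃ (u : C.A (Z.prod Y)) (v : C.A (Y.prod Z)), C.Deg ((Z.dim : ℤ) + r) u ∧
        C.Deg ((Y.dim : ℤ) - r) v ∧ μ m = C.comp (C.comp u (π (m + 2 * r))) v) :
    MurreBD H μ := by
  intro i j x hx
  obtain ⟨u, v, hu, hv, hi⟩ := hμ i
  have hux : C.act u x ∈ C.gr Y (j + r) := act_mem' C hu hx
  rw [hi, C.act_comp, C.act_comp]
  have h1 := h (i + 2 * r) (j + r) _ hux
  constructor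
  · intro hij
    rw [h1.1 (by omega), TheoryData.act_map_zero]
  · intro hij hcl
    rw [h1.2 (by omega) (by rw [cl_act H, hcl, TheoryData.act_map_zero]),
      TheoryData.act_map_zero]

/-- The pieces are direct summands. -/
lemma isSummand_of_factor {p : C.A (Y.prod Y)} (hp : C.comp p p = p) (hp0 : C.Deg Y.dim p)
    {m : C.A (Z.prod Z)} (hm : C.comp m m = m) (hm0 : C.Deg Z.dim m) {r : ℤ}
    {u : C.A (Z.prod Y)} {v : C.A (Y.prod Z)} (hu : C.Deg ((Z.dim : ℤ) + r) u)
    (hv : C.Deg ((Y.dim : ℤ) - r) v) (h : m = C.comp (C.comp u p) v) : IsSummand C p m r := by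
  have hp' : p ∈ C.gr (Y.prod Y) (Y.dim + 0) := by rw [add_zero]; exact hp0
  have hm' : m ∈ C.gr (Z.prod Z) (Z.dim + 0) := by rw [add_zero]; exact hm0
  have hv' : v ∈ C.gr (Y.prod Z) (Y.dim + -r) := by rw [← sub_eq_add_neg]; exact hv
  refine ⟨hm, C.comp (C.comp m u) p, C.comp (C.comp p v) m, ?_, ?_, ?_, ?_, ?_⟩
  · have h1 := comp_mem C (comp_mem C hm' hu) hp'
    rwa [show (0 + r + 0) = r by ring] at h1
  · have h1 := comp_mem C (comp_mem C hp' hv') hm'
    rwa [show (0 + -r + 0) = -r by ring, ← sub_eq_add_neg] at h1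
  · rw [← comp_assoc, ← comp_assoc, hm, comp_assoc, hp]
  · rw [← comp_assoc, ← comp_assoc, hp, comp_assoc, hm]
  · have h1 : C.comp (C.comp (C.comp m u) p) (C.comp (C.comp p v) m) =
        C.comp (C.comp m (C.comp (C.comp u (C.comp p p)) v)) m := by
      simp only [comp_assoc]
    rw [h1, hp, ← h, hm, hm]

end Pool.Agent.R904
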