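import Pool.Agent.TH133.SelfDual
import Pool.Agent.R904.Iso

/-!
# Self-dual Chow-Kunneth decompositions from families of idempotents
-/

open CategoryTheory AlgebraicGeometry

universe u v w

namespace Pool.Agent.R904

open Pool.Agent.H914 Pool.Agent.H914.VarClass Pool.Agent.H914.VarClass.Obj Pool.Agent.W492.BB
  Pool.Agent.W550.Corr Pool.Agent.TH133

set_option linter.unusedSectionVars false

variable {k : Type u} [Field k] {𝒱 : VarClass k}

variable {C : TheoryData.{u, v, 0} 𝒱 ℚ} [hC : IsChowProj C] {K : Type w} [Field K]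
  {H : WeilTheoryData.{u, v, w} C K} [hH : IsWeilProj H] {X Y Z W : 𝒱.Obj}

/-- The transpose makes the ring of correspondences of degree zero a ring with involution. -/
noncomputable instance : StarRing (cor0 C X) where
  star a := ⟨tpR C X a.1, tpR_mem a.2⟩
  star_involutive a := Subtype.ext (tpR_tpR a.1)
  star_mul a b := Subtype.ext (tpR_mul a.1 b.1)
  star_add a b := Subtype.ext (map_add _ _ _)

lemma coe_star (a : cor0 C X) : ((star a : cor0 C X) : Cor C X) = tpR C X a := rfl

variable (H X) in
/-- The action of the correspondences of degree zero on the cohomology. -/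
noncomputable def rho : cor0 C X →+* Module.End K (H.A X) :=
  (actH C X H).comp (cor0 C X).subtype

include hC hH

lemma rho_apply (a : cor0 C X) : rho H X a = actH C X H a := rfl

lemma rho_mem (a : cor0 C X) {m : ℤ} {x : H.A X} (hx : x ∈ H.gr X m) :
    rho H X a x ∈ H.gr X m := actH_mem0 a.2 hx

lemma tr_star (a : cor0 C X) (x y : H.A X) :
    H.tr X (rho H X (star a) y * x) = H.tr X (y * rho H X a x) := tr_act' H a.1 x y

/-- The transpose of an operator vanishing on `H^m` vanishes on `H^(2d-m)`. -/
lemma rho_star_zero {a : cor0 C X} {m : ℤ} (h : ∀ x ∈ H.gr X m, rho H X a x = 0) :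
    ∀ y ∈ H.gr X (2 * X.dim - m), rho H X (star a) y = 0 := by
  intro y hy
  apply H.nondeg
  have h2 : H.tr X ∘ₗ LinearMap.mulLeft K (rho H X (star a) y) = 0 := by
    apply ext_gr H
    intro n x hx
    rw [LinearMap.comp_apply, LinearMap.mulLeft_apply, LinearMap.zero_apply, tr_star]
    by_cases hn : n = m
    · rw [h x (hn ▸ hx), mul_zero, map_zero]
    · exact tr_zero H (H.mul_mem hy (rho_mem a hx)) (by omega)
  exact fun x => LinearMap.congr_fun h2 x

lemma rho_star_eq_zero {a : cor0 C X} (h : rho H X a = 0) : rho H X (star a) = 0 := by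
  apply ext_gr H
  intro m y hy
  rw [LinearMap.zero_apply]
  apply rho_star_zero (m := 2 * X.dim - m) (a := a)
  · intro x _
    rw [h]; rfl
  · rwa [sub_sub_cancel]

lemma rho_eq_zero_iff {a : cor0 C X} : rho H X a = 0 ↔ H.cl (X := X.prod X) a.1 = 0 := by
  constructor
  · intro h
    apply hom_zero_of_act H
    intro x
    exact LinearMap.congr_fun h x
  · intro h
    apply LinearMap.ext
    intro x
    change H.act (X := X) (Y := X) (H.cl (X := X.prod X) a.1) x = 0
    rw [h, TheoryData.act_zero]

lemma gr_zero_of {m : ℤ} {x : H.A X} (hx : x ∈ H.gr X m) (h : x ≠ 0) :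
    0 ≤ m ∧ m ≤ 2 * X.dim := by
  refine ⟨nonneg_of_mem H hx h, ?_⟩
  by_contra hcon
  rw [gr_top H (by omega)] at hx
  exact h ((Submodule.mem_bot _).1 hx)

/-- A Chow-Kunneth decomposition from a finite family of orthogonal idempotents. -/
theorem isCK_of_family {ι : Type*} [Fintype ι] [DecidableEq ι] (E : ι → cor0 C X) (δ : ι → ℕ)
    (hmul : ∀ i j, E i * E j = if i = j then E i else 0) (hsum : ∑ i, E i = 1)
    (hδ : ∀ i, δ i ≤ 2 * X.dim)
    (hact : ∀ (i : ι) (m : ℤ), m ≠ δ i → ∀ x ∈ H.gr X m, rho H X (E i) x = 0) :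
    IsCK H X (fun n => ((∑ i with δ i = n, E i : cor0 C X) : Cor C X)) := by
  have hzero : ∀ (n : ℕ) (m : ℤ) (x : H.A X), x ∈ H.gr X m → m ≠ n →
      rho H X (∑ i with δ i = n, E i) x = 0 := by
    intro n m x hx hm
    rw [map_sum, LinearMap.sum_apply]
    apply Finset.sum_eq_zero
    intro i hi
    rw [Finset.mem_filter] at hi
    exact hact i m (by rw [hi.2]; exact hm) x hx
  have hsum' : ∑ n ∈ Finset.range (2 * X.dim + 1), (∑ i with δ i = n, E i) = 1 := by
    rw [← hsum]
    rw [Finset.sum_fiberwise_of_maps_to]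
    intro i _
    rw [Finset.mem_range]
    have := hδ i
    omega
  apply isCK_of
  · intro i
    exact SetLike.coe_mem _
  · intro i hi
    have : (∑ j with δ j = i, E j : cor0 C X) = 0 := by
      apply Finset.sum_eq_zero
      intro j hj
      rw [Finset.mem_filter] at hj
      have := hδ j
      omega
    rw [this]; rfl
  · intro m n
    have : (∑ i with δ i = m, E i : cor0 C X) * (∑ i with δ i = n, E i) =
        if m = n then (∑ i with δ i = m, E i) else 0 := by
      rw [Finset.sum_mul_sum]
      simp_rw [hmul]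
      split_ifs with h
      · subst h
        apply Finset.sum_congr rfl
        intro i hi
        rw [Finset.sum_ite_eq, if_pos hi]
      · apply Finset.sum_eq_zero
        intro i hi
        rw [Finset.sum_ite_eq, if_neg]
        rw [Finset.mem_filter] at *
        intro h'
        exact h (hi.2.symm.trans h'.2)
    rw [← MulMemClass.coe_mul, this]
    split_ifs <;> rfl
  · rw [← AddSubmonoidClass.coe_finsetSum, hsum']; rfl
  · intro n m x hx
    split_ifs with hmn
    · have h1 : rho H X (1 : cor0 C X) x = x := by rw [map_one]; rfl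
      by_cases hx0 : x = 0
      · rw [hx0, map_zero]
      have h3 := gr_zero_of hx hx0
      rw [← hsum', map_sum, LinearMap.sum_apply, Finset.sum_eq_single n] at h1
      · exact h1
      · intro b _ hb
        apply hzero b m x hx
        rw [hmn]
        exact_mod_cast Ne.symm hb
      · intro h
        exfalso; apply h
        rw [Finset.mem_range]
        omega
    · exact hzero n m x hx hmn

/-- A self-dual Chow-Kunneth decomposition from a finite family of orthogonal idempotents. -/
theorem selfDual_of_family {ι : Type*} [Fintype ι] [DecidableEq ι] (E : ι → cor0 C X) (δ : ι → ℕ)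
    (hmul : ∀ i j, E i * E j = if i = j then E i else 0) (hsum : ∑ i, E i = 1)
    (hδ : ∀ i, δ i ≤ 2 * X.dim)
    (hact : ∀ (i : ι) (m : ℤ), m ≠ δ i → ∀ x ∈ H.gr X m, rho H X (E i) x = 0)
    (s : ι ≃ ι) (hs : ∀ i, star (E i) = E (s i)) (hs' : ∀ i, δ (s i) = 2 * X.dim - δ i) :
    ∃ π, IsCK H X π ∧ IsSelfDual C π := by
  refine ⟨_, isCK_of_family E δ hmul hsum hδ hact, ?_⟩
  intro n hn
  change tpR C X _ = _
  rw [← coe_star]
  congr 1
  rw [star_sum]
  simp_rw [hs]
  rw [Finset.sum_filter, Finset.sum_filter,
    ← Equiv.sum_comp s (fun i => if δ i = 2 * X.dim - n then E i else 0)]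
  apply Finset.sum_congr rfl
  intro i _
  rw [hs']
  have := hδ i
  congr 1
  rw [eq_iff_iff]
  omega

/-- A self-dual Chow-Kunneth decomposition from an isotropic system of idempotents. -/
theorem selfDual_of_isotropic {ι : Type*} [Fintype ι] [DecidableEq ι] (q : ι → cor0 C X)
    (δ : ι → ℕ) (hδ : ∀ i, δ i ≤ 2 * X.dim)
    (h1 : ∀ i j, q i * q j = if i = j then q i else 0) (h2 : ∀ i j, q i * star (q j) = 0)
    (h3 : ∀ i j, star (q i) * q j = 0)
    (hact : ∀ (i : ι) (m : ℤ), m ≠ δ i → ∀ x ∈ H.gr X m, rho H X (q i) x = 0)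
    (hf : ∀ m : ℤ, m ≠ X.dim → ∀ x ∈ H.gr X m,
      rho H X (1 - ∑ i, (q i + star (q i))) x = 0) :
    ∃ π, IsCK H X π ∧ IsSelfDual C π := by
  have h4 : ∀ i j, star (q i) * star (q j) = if i = j then star (q i) else 0 := by
    intro i j
    rw [← star_mul, h1]
    by_cases h : i = j
    · rw [if_pos h.symm, if_pos h, h]
    · rw [if_neg h, if_neg (Ne.symm h), star_zero]
  obtain ⟨G, hG⟩ : ∃ G, G = ∑ i, (q i + star (q i)) := ⟨_, rfl⟩
  rw [← hG] at hf
  have qG : ∀ i, q i * G = q i := by
    intro i
    rw [hG, Finset.mul_sum, Finset.sum_eq_single i]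
    · rw [mul_add, h1, if_pos rfl, h2, add_zero]
    · intro j _ hj
      rw [mul_add, h1, if_neg (Ne.symm hj), h2, add_zero]
    · intro h; exact absurd (Finset.mem_univ i) h
  have Gq : ∀ i, G * q i = q i := by
    intro i
    rw [hG, Finset.sum_mul, Finset.sum_eq_single i]
    · rw [add_mul, h1, if_pos rfl, h3, add_zero]
    · intro j _ hj
      rw [add_mul, h1, if_neg hj, h3, add_zero]
    · intro h; exact absurd (Finset.mem_univ i) h
  have sG : star G = G := by
    rw [hG, star_sum]
    apply Finset.sum_congr rfl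
    intro i _
    rw [star_add, star_star, add_comm]
  have sqG : ∀ i, star (q i) * G = star (q i) := by
    intro i
    have := congrArg star (Gq i)
    rwa [star_mul, sG] at this
  have Gsq : ∀ i, G * star (q i) = star (q i) := by
    intro i
    have := congrArg star (qG i)
    rwa [star_mul, sG] at this
  have GG : G * G = G := by
    have e1 : G * G = ∑ i, (q i + star (q i)) * G := by rw [← Finset.sum_mul, ← hG]
    rw [e1]
    conv_rhs => rw [hG]
    apply Finset.sum_congr rfl
    intro i _
    rw [add_mul, qG, sqG]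
  let E : (ι ⊕ ι) ⊕ Unit → cor0 C X := Sum.elim (Sum.elim q (fun i => star (q i))) fun _ => 1 - G
  let d : (ι ⊕ ι) ⊕ Unit → ℕ := Sum.elim (Sum.elim δ (fun i => 2 * X.dim - δ i)) fun _ => X.dim
  refine selfDual_of_family (H := H) E d ?_ ?_ ?_ ?_
    (Equiv.sumCongr (Equiv.sumComm ι ι) (Equiv.refl Unit)) ?_ ?_
  · rintro ((i | i) | i) ((j | j) | j)
    · simp only [E, Sum.elim_inl, h1, Sum.inl.injEq]
    · simp only [E, Sum.elim_inl, Sum.elim_inr, h2, Sum.inl.injEq, reduceCtorEq, if_false]
    · simp only [E, Sum.elim_inl, Sum.elim_inr, reduceCtorEq, if_false, mul_sub, mul_one, qG,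
        sub_self]
    · simp only [E, Sum.elim_inl, Sum.elim_inr, h3, Sum.inl.injEq, reduceCtorEq, if_false]
    · simp only [E, Sum.elim_inl, Sum.elim_inr, h4, Sum.inl.injEq, Sum.inr.injEq]
    · simp only [E, Sum.elim_inl, Sum.elim_inr, reduceCtorEq, if_false, mul_sub, mul_one, sqG,
        sub_self]
    · simp only [E, Sum.elim_inl, Sum.elim_inr, reduceCtorEq, if_false, sub_mul, one_mul, Gq,
        sub_self]
    · simp only [E, Sum.elim_inl, Sum.elim_inr, reduceCtorEq, if_false, sub_mul, one_mul, Gsq,
        sub_self]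
    · simp only [E, Sum.elim_inr, if_true]
      rw [mul_sub, mul_one, sub_mul, one_mul, GG, sub_self, sub_zero]
  · rw [Fintype.sum_sum_type, Fintype.sum_sum_type]
    simp only [E, Sum.elim_inl, Sum.elim_inr, Fintype.sum_unique]
    rw [← Finset.sum_add_distrib, ← hG, add_sub_cancel]
  · rintro ((i | i) | i)
    · exact hδ i
    · simp only [d, Sum.elim_inl, Sum.elim_inr]; omega
    · simp only [d, Sum.elim_inr]; omega
  · rintro ((i | i) | i) m hm x hx
    · exact hact i m hm x hx
    · simp only [d, Sum.elim_inl, Sum.elim_inr] at hm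
      simp only [E, Sum.elim_inl, Sum.elim_inr]
      have := hδ i
      apply rho_star_zero (m := 2 * X.dim - m) (a := q i)
      · exact hact i _ (by omega)
      · rwa [sub_sub_cancel]
    · simp only [d, Sum.elim_inr] at hm
      simp only [E, Sum.elim_inr]
      exact hf m hm x hx
  · rintro ((i | i) | i)
    · simp [E]
    · simp [E]
    · simp only [E, Sum.elim_inr, star_sub, star_one, sG]
      rfl
  · rintro ((i | i) | i)
    · simp [d]
    · simp only [d, Sum.elim_inl, Sum.elim_inr]
      change δ i = _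
      have := hδ i
      omega
    · simp only [d, Sum.elim_inr]
      change X.dim = _
      omega

/-- **The nilpotence criterion.** -/
theorem selfDual_of_nilFac {ι : Type*} [Fintype ι] [DecidableEq ι] (α : ι → cor0 C X)
    (δ : ι → ℕ) (hδ : ∀ i, δ i < X.dim) (hN : ∀ i, NilFac (rho H X) (α i))
    (h1 : ∀ i j, rho H X (α i * α j) = if i = j then rho H X (α i) else 0)
    (hact : ∀ (i : ι) (m : ℤ), m ≠ δ i → ∀ x ∈ H.gr X m, rho H X (α i) x = 0)
    (hsum : ∀ m : ℤ, m < X.dim → ∀ x ∈ H.gr X m, rho H X (∑ i, α i) x = x) :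
    ∃ π, IsCK H X π ∧ IsSelfDual C π := by
  have hst : ∀ (i : ι) (m : ℤ), m ≠ 2 * X.dim - δ i → ∀ x ∈ H.gr X m,
      rho H X (star (α i)) x = 0 := by
    intro i m hm x hx
    apply rho_star_zero (m := 2 * X.dim - m) (a := α i)
    · exact hact i _ (by omega)
    · rwa [sub_sub_cancel]
  obtain ⟨q, q1, q2, q3, q4, -⟩ := exists_isotropic_of_nil (rho H X) (fun x hx => rho_star_eq_zero hx)
    α hN h1 (by
      intro i j
      apply ext_gr H
      intro m x hx
      rw [LinearMap.zero_apply, map_mul, Module.End.mul_apply]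
      by_cases hm : m = 2 * X.dim - δ j
      · apply hact i m _ _ (rho_mem _ hx)
        have := hδ i
        have := hδ j
        omega
      · rw [hst j m hm x hx, map_zero]) (by
      intro i j
      apply ext_gr H
      intro m x hx
      rw [LinearMap.zero_apply, map_mul, Module.End.mul_apply]
      by_cases hm : m = δ j
      · apply hst i m _ _ (rho_mem _ hx)
        have := hδ i
        have := hδ j
        omega
      · rw [hact j m hm x hx, map_zero])
    1 (star_one _) (fun i => one_mul _) (fun i => mul_one _) Finset.univ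
  have q5 : ∀ i, rho H X (star (q i)) = rho H X (star (α i)) := by
    intro i
    have := rho_star_eq_zero (H := H) (a := q i - α i)
      (by rw [map_sub, q4 i (Finset.mem_univ i), sub_self])
    rwa [star_sub, map_sub, sub_eq_zero] at this
  have key : ∀ m : ℤ, m < X.dim → ∀ x ∈ H.gr X m,
      rho H X (1 - ∑ i, (q i + star (q i))) x = 0 := by
    intro m hm x hx
    rw [map_sub, LinearMap.sub_apply, map_one, map_sum, LinearMap.sum_apply]
    have e1 : ∀ i ∈ (Finset.univ : Finset ι), rho H X (q i + star (q i)) x = rho H X (α i) x := by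
      intro i hi
      rw [map_add, q4 i hi, q5 i, LinearMap.add_apply, hst i m _ x hx, add_zero]
      have := hδ i
      omega
    rw [Finset.sum_congr rfl e1, ← LinearMap.sum_apply, ← map_sum, hsum m hm x hx]
    exact sub_self x
  refine selfDual_of_isotropic (H := H) q δ (fun i => by have := hδ i; omega)
    (fun i j => q1 i (Finset.mem_univ i) j (Finset.mem_univ j))
    (fun i j => q2 i (Finset.mem_univ i) j (Finset.mem_univ j))
    (fun i j => q3 i (Finset.mem_univ i) j (Finset.mem_univ j)) ?_ ?_
  · intro i m hm x hx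
    rw [q4 i (Finset.mem_univ i)]
    exact hact i m hm x hx
  · intro m hm x hx
    rcases lt_or_gt_of_ne hm with h | h
    · exact key m h x hx
    · have hs : star (1 - ∑ i, (q i + star (q i))) = 1 - ∑ i, (q i + star (q i)) := by
        rw [star_sub, star_one, star_sum]
        congr 1
        apply Finset.sum_congr rfl
        intro i _
        rw [star_add, star_star, add_comm]
      rw [← hs]
      apply rho_star_zero (m := 2 * X.dim - m)
      · exact key _ (by omega)
      · rwa [sub_sub_cancel]

end Pool.Agent.R904
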