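import Pool.Agent.R904.SDBase

/-!
# Self-dual Chow-Kunneth decompositions from Lagrangian systems
-/

open CategoryTheory AlgebraicGeometry

universe u v w

namespace Pool.Agent.R904

open Pool.Agent.H914 Pool.Agent.H914.VarClass Pool.Agent.H914.VarClass.Obj Pool.Agent.W492.BB
  Pool.Agent.W550.Corr Pool.Agent.TH133

set_option linter.unusedSectionVars false

variable {k : Type u} [Field k] {𝒱 : VarClass k}

variable {C : TheoryData.{u, v, 0} 𝒱 ℚ} [hC : IsChowProj C] {K : Type w} [Field K]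
  {H : WeilTheoryData.{u, v, w} C K} [hH : IsWeilProj H] {X Y Z W : 𝒱.Obj}

include hC hH

lemma rho_smul_apply (q : ℚ) {a : cor0 C X} {x : H.A X} (h : rho H X a x = 0) :
    rho H X (q • a) x = 0 := by
  rw [← one_mul a, ← smul_mul_assoc, map_mul, Module.End.mul_apply, h, map_zero]

/-- **Lagrangian systems of idempotents.** -/
theorem selfDual_of_lagrangian {ι : Type*} [Fintype ι] [DecidableEq ι] (e : ι → cor0 C X)
    (δ : ι → ℕ) (hδ : ∀ i, δ i ≤ 2 * X.dim)
    (hee : ∀ i j, e i * e j = if i = j then e i else 0)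
    (hact : ∀ (i : ι) (m : ℤ), m ≠ δ i → ∀ x ∈ H.gr X m, rho H X (e i) x = 0)
    (hz : IsNilpotent ((∑ i, e i) * star (∑ i, e i) * (∑ i, e i)))
    (hρ : rho H X (star (∑ i, e i) * (∑ i, e i)) = 0)
    (hL : ∀ m : ℤ, m ≠ X.dim → ∀ x ∈ H.gr X m,
      rho H X ((1 - ∑ i, e i) * (1 - star (∑ i, e i))) x = 0) :
    ∃ π, IsCK H X π ∧ IsSelfDual C π := by
  obtain ⟨q, q1, q2, q3, q4, -⟩ := exists_isotropic e hee hz (rho H X) hρ
  obtain ⟨E, hE⟩ : ∃ E, E = ∑ i, e i := ⟨_, rfl⟩
  rw [← hE] at hz hρ hL q4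
  refine selfDual_of_isotropic (H := H) q δ hδ q1 q2 q3 ?_ ?_
  · intro i m hm x hx
    rw [q4, map_sub, LinearMap.sub_apply, hact i m hm x hx, zero_sub, neg_eq_zero]
    apply rho_smul_apply
    rw [map_mul, Module.End.mul_apply]
    exact hact i m hm _ (rho_mem _ hx)
  · intro m hm x hx
    have h1 : rho H X (∑ i, q i - (E - (1 / 2 : ℚ) • (E * star E))) = 0 := by
      rw [map_sub, map_sum, Finset.sum_congr rfl fun i _ => q4 i, ← map_sum,
        Finset.sum_sub_distrib, ← hE, ← Finset.smul_sum, ← Finset.sum_mul, ← hE, sub_self]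
    have h2 := rho_star_eq_zero h1
    have h3 : star (∑ i, q i - (E - (1 / 2 : ℚ) • (E * star E))) =
        ∑ i, star (q i) - (star E - (1 / 2 : ℚ) • (E * star E)) := by
      rw [star_sub, star_sub, star_sum, star_qsmul, star_mul, star_star]
    rw [h3] at h2
    have h4 : (1 - ∑ i, (q i + star (q i))) = (1 - E) * (1 - star E) -
        (∑ i, q i - (E - (1 / 2 : ℚ) • (E * star E))) -
        (∑ i, star (q i) - (star E - (1 / 2 : ℚ) • (E * star E))) := by
      have h5 : (1 - E) * (1 - star E) = 1 - E - star E + (1 / 2 : ℚ) • (E * star E) +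
          (1 / 2 : ℚ) • (E * star E) := by
        rw [add_assoc, ← add_smul]
        norm_num
        noncomm_ring
      rw [h5, Finset.sum_add_distrib]
      abel
    rw [h4, map_sub, map_sub, h1, h2, sub_zero, sub_zero]
    exact hL m hm x hx

/-- **Lagrangian systems of correspondences.** -/
theorem selfDual_of_lagrangianSystem {N : ℕ} (S : Fin N → 𝒱.Obj) (r : Fin N → ℤ)
    (E : ∀ s, C.A ((S s).prod X)) (G : ∀ s, C.A (X.prod (S s)))
    (hE : ∀ s, C.Deg (((S s).dim : ℤ) + r s) (E s)) (hG : ∀ s, C.Deg ((X.dim : ℤ) - r s) (G s))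
    (hEG : ∀ s, C.comp (E s) (G s) = dg C (S s)) (hEG' : ∀ s t, s ≠ t → C.comp (E s) (G t) = 0)
    (hiso : ∀ s t, C.comp (E s) (tp C (E t)) = 0) (hS : ∀ s, ∃ p, IsCK H (S s) p)
    (hspan : ∀ (m : ℤ) (x : H.A X), H.Deg m x → m ≠ X.dim → ∃ y z : ∀ s, H.A (S s),
      x = ∑ s, (H.act (H.cl (E s)) (y s) + H.act (H.cl (tp C (G s))) (z s))) :
    ∃ π, IsCK H X π ∧ IsSelfDual C π := by
  classical
  choose p hp using hS
  have hE' : ∀ s, E s ∈ C.gr ((S s).prod X) (((S s).dim : ℤ) + r s) := hE
  have hG' : ∀ s, G s ∈ C.gr (X.prod (S s)) ((X.dim : ℤ) + -r s) := fun s => by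
    rw [← sub_eq_add_neg]; exact hG s
  let I : Type := (s : Fin N) × Fin (2 * (S s).dim + 1)
  obtain ⟨c, hc⟩ : ∃ c : ∀ s, ℕ → C.A (X.prod X), ∀ s n, c s n =
    C.comp (C.comp (G s) (p s n)) (E s) := ⟨_, fun _ _ => rfl⟩
  have hcm : ∀ s n, c s n ∈ cor0 C X := by
    intro s n
    rw [hc]
    have h0 : p s n ∈ C.gr ((S s).prod (S s)) ((S s).dim + 0) := by
      rw [add_zero]; exact (hp s).deg n
    have h := comp_mem C (comp_mem C (hG' s) h0) (hE' s)
    rwa [show (-r s + 0 + r s) = 0 by ring, add_zero] at h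
  have hcc : ∀ s t m n, C.comp (c t m) (c s n) = if s = t ∧ m = n then c t m else 0 := by
    intro s t m n
    have e1 : C.comp (c t m) (c s n) =
        C.comp (C.comp (C.comp (G t) (p t m)) (C.comp (E t) (G s))) (C.comp (p s n) (E s)) := by
      rw [hc, hc]; simp only [comp_assoc]
    rw [e1]
    by_cases hst : s = t
    · subst hst
      rw [hEG, comp_dg, comp_assoc, ← comp_assoc C (p s m), (hp s).comp_eq, hc]
      by_cases hmn : m = n
      · rw [if_pos hmn, if_pos ⟨rfl, hmn⟩, comp_assoc]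
      · rw [if_neg hmn, if_neg (fun h => hmn h.2), zero_comp, comp_zero]
    · rw [hEG' t s (Ne.symm hst), comp_zero, zero_comp, if_neg (fun h => hst h.1)]
  let e : I → cor0 C X := fun i => ⟨c i.1 i.2, hcm i.1 i.2⟩
  have hsum : ((∑ i, e i : cor0 C X) : Cor C X) = (∑ s, C.comp (G s) (E s) : C.A (X.prod X)) := by
    rw [AddSubmonoidClass.coe_finsetSum]
    have e1 : ∑ i : I, ((e i : cor0 C X) : Cor C X) =
        ∑ s, ∑ n : Fin (2 * (S s).dim + 1), (c s n : C.A (X.prod X)) :=
      Fintype.sum_sigma _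
    rw [e1]
    apply Finset.sum_congr rfl
    intro s _
    rw [Fin.sum_univ_eq_sum_range (fun n => c s n) (2 * (S s).dim + 1)]
    simp_rw [hc]
    rw [← sum_comp, ← comp_sum, (hp s).sum, comp_dg]
  obtain ⟨L, hL⟩ : ∃ L : cor0 C X, L = ∑ i, e i := ⟨_, rfl⟩
  have hL1 : (L : Cor C X) = (∑ s, C.comp (G s) (E s) : C.A (X.prod X)) := by rw [hL, hsum]
  have hsL : star L * L = 0 := by
    apply Subtype.ext
    change C.comp (X := X) (Y := X) (Z := X) (L : Cor C X) (tp C (X := X) (Y := X) (L : Cor C X)) = 0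
    rw [hL1, tp_sum, sum_comp]
    apply Finset.sum_eq_zero
    intro s _
    rw [comp_sum]
    apply Finset.sum_eq_zero
    intro t _
    rw [tp_comp C (ch_comm C), comp_assoc, ← comp_assoc C (E s), hiso, zero_comp, comp_zero]
  have hLact : ∀ x, rho H X L x = ∑ s, H.act (H.cl (E s)) (H.act (H.cl (G s)) x) := by
    intro x
    rw [rho_apply, hL1]
    change H.act (H.cl (∑ s, C.comp (G s) (E s))) x = _
    rw [map_sum, act_sum]
    apply Finset.sum_congr rfl
    intro s _
    rw [actH_comp]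
  have hsLact : ∀ x, rho H X (star L) x =
      ∑ s, H.act (H.cl (tp C (G s))) (H.act (H.cl (tp C (E s))) x) := by
    intro x
    change H.act (H.cl (tp C (X := X) (Y := X) (L : Cor C X))) x = _
    rw [hL1, tp_sum, map_sum, act_sum]
    apply Finset.sum_congr rfl
    intro s _
    rw [tp_comp C (ch_comm C), actH_comp]
  have a1 : ∀ s t (y : H.A (S s)), H.act (H.cl (G t)) (H.act (H.cl (E s)) y) =
      if h : t = s then h ▸ y else 0 := by
    intro s t y
    rw [← actH_comp]
    split_ifs with h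
    · subst h
      rw [hEG, actH_dg]
    · rw [hEG' s t (Ne.symm h), actH_zero]
  have a2 : ∀ s t (y : H.A (S s)), H.act (H.cl (tp C (E t))) (H.act (H.cl (tp C (G s))) y) =
      if h : t = s then h ▸ y else 0 := by
    intro s t y
    rw [← actH_comp, ← tp_comp C (ch_comm C)]
    split_ifs with h
    · subst h
      rw [hEG, tp_dg, actH_dg]
    · rw [hEG' t s h, tp_zero, actH_zero]
  have a3 : ∀ s t (y : H.A (S s)), H.act (H.cl (tp C (E t))) (H.act (H.cl (E s)) y) = 0 := by
    intro s t y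
    rw [← actH_comp, hiso, actH_zero]
  have b1 : ∀ s (y : H.A (S s)), rho H X L (H.act (H.cl (E s)) y) = H.act (H.cl (E s)) y := by
    intro s y
    rw [hLact, Finset.sum_eq_single s]
    · rw [a1, dif_pos rfl]
    · intro t _ ht
      rw [a1, dif_neg ht, TheoryData.act_map_zero]
    · intro h; exact absurd (Finset.mem_univ s) h
  have b2 : ∀ s (y : H.A (S s)), rho H X (star L) (H.act (H.cl (tp C (G s))) y) =
      H.act (H.cl (tp C (G s))) y := by
    intro s y
    rw [hsLact, Finset.sum_eq_single s]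
    · rw [a2, dif_pos rfl]
    · intro t _ ht
      rw [a2, dif_neg ht, TheoryData.act_map_zero]
    · intro h; exact absurd (Finset.mem_univ s) h
  have b3 : ∀ s (y : H.A (S s)), rho H X (star L) (H.act (H.cl (E s)) y) = 0 := by
    intro s y
    rw [hsLact]
    apply Finset.sum_eq_zero
    intro t _
    rw [a3, TheoryData.act_map_zero]
  let δ : I → ℕ := fun i => if ((i.2 : ℕ) : ℤ) + 2 * r i.1 ≤ 2 * X.dim then
    (((i.2 : ℕ) : ℤ) + 2 * r i.1).toNat else 0
  refine selfDual_of_lagrangian (H := H) e δ ?_ ?_ ?_ ?_ ?_ ?_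
  · intro i
    simp only [δ]
    split_ifs with h
    · omega
    · omega
  · rintro ⟨s, n⟩ ⟨t, m⟩
    apply Subtype.ext
    change C.comp (X := X) (Y := X) (Z := X) (c t m) (c s n) = _
    rw [hcc]
    by_cases hst : s = t
    · subst hst
      by_cases hmn : m = n
      · subst hmn
        rw [if_pos ⟨rfl, rfl⟩, if_pos rfl]
      · rw [if_neg (fun h => hmn (Fin.ext h.2)), if_neg]
        · rfl
        · intro h
          apply hmn
          have := (Sigma.mk.inj_iff.1 h).2
          exact (eq_of_heq this).symm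
    · rw [if_neg (fun h => hst h.1), if_neg]
      · rfl
      · intro h
        exact hst (Sigma.mk.inj_iff.1 h).1
  · rintro ⟨s, n⟩ m hm x hx
    change H.act (H.cl (c s n)) x = 0
    rw [hc, actH_comp, actH_comp]
    have h1 : H.act (H.cl (G s)) x ∈ H.gr (S s) (m + 2 * -r s) :=
      Pool.Agent.W492.BB.actH_mem H (hG' s) hx
    rw [(hp s).actH_eq _ _ h1]
    split_ifs with h2
    · -- the degree is out of range, or the class vanishes
      by_cases hx0 : x = 0
      · rw [hx0, TheoryData.act_map_zero, TheoryData.act_map_zero]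
      · exfalso
        have h3 := gr_zero_of hx hx0
        apply hm
        simp only [δ]
        rw [if_pos (by omega)]
        omega
    · rw [TheoryData.act_map_zero]
  · rw [← hL, mul_assoc, hsL, mul_zero]
    exact IsNilpotent.zero
  · rw [← hL, hsL, map_zero]
  · intro m hm x hx
    obtain ⟨y, z, hyz⟩ := hspan m x hx hm
    rw [← hL, map_mul, Module.End.mul_apply]
    have h1 : rho H X (1 - star L) x = ∑ s, H.act (H.cl (E s)) (y s) := by
      rw [map_sub, map_one, LinearMap.sub_apply, Module.End.one_apply]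
      have h2 : rho H X (star L) x = ∑ s, H.act (H.cl (tp C (G s))) (z s) := by
        rw [hyz, map_sum]
        apply Finset.sum_congr rfl
        intro s _
        rw [map_add, b2, b3, zero_add]
      rw [h2, hyz, Finset.sum_add_distrib, add_sub_cancel_right]
    rw [h1, map_sum]
    apply Finset.sum_eq_zero
    intro s _
    rw [map_sub, map_one, LinearMap.sub_apply, Module.End.one_apply, b1, sub_self]

end Pool.Agent.R904
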