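import Pool.Agent.R904.Iso

/-!
# Witt cancellation for systems of idempotents in rings with involution
-/

namespace Pool.Agent.R904

open Polynomial

variable {R : Type*} [Ring R] [Algebra ℚ R] [StarRing R]

/-- Square roots of `1 - ν` for `ν` nilpotent. -/
lemma exists_sqrt {ν : R} (hν : IsNilpotent ν) (hs : star ν = ν) {S : Type*} [Ring S]
    (ρ : R →+* S) : ∃ σ τ κ : R,
    σ * σ = 1 - ν ∧ σ * τ = 1 ∧ τ * σ = 1 ∧ (1 + σ) * κ = 1 ∧ κ * (1 + σ) = 1 ∧
    star σ = σ ∧ star τ = τ ∧ star κ = κ ∧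
    (∀ a, Commute a ν → Commute a σ ∧ Commute a τ ∧ Commute a κ) ∧
    (ρ ν = 0 → ρ σ = 1 ∧ ρ τ = 1) := by
  obtain ⟨g, hg⟩ := exists_gamma hν
  obtain ⟨γ, hγ⟩ : ∃ γ, γ = aeval ν g := ⟨_, rfl⟩
  rw [← hγ] at hg
  have hγν : Commute γ ν := by rw [hγ]; exact aeval_commute (Commute.refl ν) g
  have hsγ : star γ = γ := by rw [hγ, star_aeval, hs]
  obtain ⟨σ, hσ⟩ : ∃ σ, σ = 1 + ν * γ := ⟨_, rfl⟩
  have hσσ : σ * σ = 1 - ν := by
    have h1 : σ * σ = 1 + ν * (ν * γ ^ 2 + 2 * γ + 1) - ν := by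
      have h2 : ν * γ * (ν * γ) = ν * (ν * γ ^ 2) := by
        rw [mul_assoc, ← mul_assoc γ, hγν.eq, mul_assoc ν γ γ, pow_two]
      rw [hσ, mul_add, add_mul, add_mul, one_mul, mul_one, one_mul, h2, mul_add, mul_add, two_mul,
        mul_add, mul_one]
      abel
    rw [h1, hg, mul_zero, add_zero]
  have hn : IsNilpotent (ν * γ) := (hγν.symm).isNilpotent_mul_right hν
  obtain ⟨u, hu⟩ := hn.isUnit_one_add
  have hn2 : IsNilpotent ((1 / 2 : ℚ) • (ν * γ)) := hn.smul _
  obtain ⟨u', hu'⟩ := hn2.isUnit_one_add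
  have hu2 : 1 + σ = (2 : ℚ) • (u' : R) := by
    rw [hσ, hu', smul_add, smul_smul]
    norm_num
    rw [← add_assoc]
    congr 1
    rw [show (2 : ℚ) • (1 : R) = (1 + 1 : ℚ) • (1 : R) by norm_num, add_smul, one_smul]
  have hsu : star (u : R) = u := by
    rw [hu, star_add, star_one, star_mul, hs, hsγ, hγν.eq]
  have hsu' : star (u' : R) = u' := by
    rw [hu', star_add, star_one, star_qsmul, star_mul, hs, hsγ, hγν.eq]
  have inv_star : ∀ x : Rˣ, star (x : R) = x → star ((x⁻¹ : Rˣ) : R) = ((x⁻¹ : Rˣ) : R) := by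
    intro x hx
    have h1 : star ((x⁻¹ : Rˣ) : R) * x = 1 := by
      conv_lhs => rw [← hx]
      rw [← star_mul, Units.mul_inv, star_one]
    calc star ((x⁻¹ : Rˣ) : R) = star ((x⁻¹ : Rˣ) : R) * (x * ((x⁻¹ : Rˣ) : R)) := by
          rw [Units.mul_inv, mul_one]
      _ = _ := by rw [← mul_assoc, h1, one_mul]
  refine ⟨σ, ((u⁻¹ : Rˣ) : R), (1 / 2 : ℚ) • ((u'⁻¹ : Rˣ) : R), hσσ, ?_, ?_, ?_, ?_, ?_, ?_, ?_,
    ?_, ?_⟩
  · rw [hσ, ← hu, Units.mul_inv]
  · rw [hσ, ← hu, Units.inv_mul]
  · rw [hu2, smul_mul_smul_comm, Units.mul_inv]; norm_num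
  · rw [hu2, smul_mul_smul_comm, Units.inv_mul]; norm_num
  · rw [hσ, ← hu, hsu]
  · exact inv_star u hsu
  · rw [star_qsmul, inv_star u' hsu']
  · intro a ha
    have h1 : Commute a γ := by
      rw [hγ]; exact (aeval_commute ha.symm g).symm
    have h2 : Commute a (ν * γ) := ha.mul_right h1
    have h3 : Commute a σ := by rw [hσ]; exact (Commute.one_right a).add_right h2
    have h4 : Commute a (u : R) := by rw [hu]; exact (Commute.one_right a).add_right h2
    have h5 : Commute a (u' : R) := by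
      rw [hu']; exact (Commute.one_right a).add_right (h2.smul_right _)
    exact ⟨h3, h4.units_inv_right, (h5.units_inv_right).smul_right _⟩
  · intro hρ
    have h1 : ρ (u : R) = 1 := by rw [hu, map_add, map_one, map_mul, hρ, zero_mul, add_zero]
    refine ⟨by rw [hσ, ← hu, h1], ?_⟩
    have h2 : ρ (((u⁻¹ : Rˣ) : R) * u) = 1 := by rw [Units.inv_mul, map_one]
    rwa [map_mul, h1, mul_one] at h2

/-- **Witt cancellation.** -/
theorem witt_cancel {ι : Type*} [Fintype ι] [DecidableEq ι] (s : ι ≃ ι) (n P : ι → R) (q : R)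
    (hn : ∀ i j, n i * n j = if i = j then n i else 0) (hns : ∀ i, star (n i) = n (s i))
    (hq : q = ∑ i, n i)
    (hP : ∀ i j, P i * P j = if i = j then P i else 0) (hPs : ∀ i, star (P i) = P (s i))
    (hP1 : ∑ i, P i = 1)
    {S : Type*} [Ring S] (ρ : R →+* S) (hN : NilFac ρ q)
    (hρ1 : ∀ i, ρ (P i * n i) = ρ (n i)) (hρ2 : ∀ i, ρ (n i * P i) = ρ (n i)) :
    ∃ m : ι → R, (∀ i j, m i * m j = if i = j then m i else 0) ∧ (∀ i, star (m i) = m (s i)) ∧
      (∑ i, m i = 1 - q) ∧ (∀ i, ∃ a b, m i = a * P i * b) := by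
  have hnq : ∀ i, n i * q = n i := by
    intro i
    rw [hq, Finset.mul_sum, Finset.sum_eq_single i]
    · rw [hn, if_pos rfl]
    · intro j _ hj; rw [hn, if_neg (Ne.symm hj)]
    · intro h; exact absurd (Finset.mem_univ i) h
  have hqn : ∀ i, q * n i = n i := by
    intro i
    rw [hq, Finset.sum_mul, Finset.sum_eq_single i]
    · rw [hn, if_pos rfl]
    · intro j _ hj; rw [hn, if_neg hj]
    · intro h; exact absurd (Finset.mem_univ i) h
  have hqq : q * q = q := by
    have h1 : q * q = ∑ i, n i * q := by rw [← Finset.sum_mul, ← hq]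
    rw [h1, Finset.sum_congr rfl fun i _ => hnq i, ← hq]
  have hsq : star q = q := by
    rw [hq, star_sum, Finset.sum_congr rfl fun i _ => hns i, Equiv.sum_comp s n]
  obtain ⟨g, hg⟩ : ∃ g, g = ∑ i, P i * n i := ⟨_, rfl⟩
  have hsg : star g = ∑ i, n i * P i := by
    rw [hg, star_sum, ← Equiv.sum_comp s (fun i => n i * P i)]
    apply Finset.sum_congr rfl
    intro i _
    rw [star_mul, hns, hPs]
  have hgn : ∀ i, g * n i = P i * n i := by
    intro i
    rw [hg, Finset.sum_mul, Finset.sum_eq_single i]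
    · rw [mul_assoc, hn, if_pos rfl]
    · intro j _ hj; rw [mul_assoc, hn, if_neg hj, mul_zero]
    · intro h; exact absurd (Finset.mem_univ i) h
  have hPg : ∀ i, P i * g = P i * n i := by
    intro i
    rw [hg, Finset.mul_sum, Finset.sum_eq_single i]
    · rw [← mul_assoc, hP, if_pos rfl]
    · intro j _ hj; rw [← mul_assoc, hP, if_neg (Ne.symm hj), zero_mul]
    · intro h; exact absurd (Finset.mem_univ i) h
  have hgq : g * q = g := by
    rw [hg, Finset.sum_mul]
    apply Finset.sum_congr rfl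
    intro i _
    rw [mul_assoc, hnq]
  have hqsg : q * star g = star g := by
    have := congrArg star hgq
    rwa [star_mul, hsq] at this
  have hnsgg : ∀ i, n i * (star g * g) = n i * P i * n i := by
    intro i
    have h1 : n i * star g = n i * P i := by
      rw [hsg, Finset.mul_sum, Finset.sum_eq_single i]
      · rw [← mul_assoc, hn, if_pos rfl]
      · intro j _ hj; rw [← mul_assoc, hn, if_neg (Ne.symm hj), zero_mul]
      · intro h; exact absurd (Finset.mem_univ i) h
    rw [← mul_assoc, h1, mul_assoc, hPg, mul_assoc]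
  have hsggn : ∀ i, (star g * g) * n i = n i * P i * n i := by
    intro i
    have h1 : star g * P i = n i * P i := by
      rw [hsg, Finset.sum_mul, Finset.sum_eq_single i]
      · rw [mul_assoc, hP, if_pos rfl]
      · intro j _ hj; rw [mul_assoc, hP, if_neg hj, mul_zero]
      · intro h; exact absurd (Finset.mem_univ i) h
    rw [mul_assoc, hgn, ← mul_assoc, h1]
  have hρg : ρ g = ρ q := by
    rw [hg, hq, map_sum, map_sum]
    exact Finset.sum_congr rfl fun i _ => hρ1 i
  have hρsg : ρ (star g) = ρ q := by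
    rw [hsg, hq, map_sum, map_sum]
    exact Finset.sum_congr rfl fun i _ => hρ2 i
  obtain ⟨ν, hν⟩ : ∃ ν, ν = q - star g * g := ⟨_, rfl⟩
  have hsν : star ν = ν := by rw [hν, star_sub, hsq, star_mul, star_star]
  have hqν : q * ν = ν := by rw [hν, mul_sub, hqq, ← mul_assoc, hqsg]
  have hνq : ν * q = ν := by rw [hν, sub_mul, hqq, mul_assoc, hgq]
  have hρν : ρ ν = 0 := by
    rw [hν, map_sub, map_mul, hρg, hρsg, ← map_mul, hqq, sub_self]
  have hνn : IsNilpotent ν := by
    have := hN ν hρν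
    rwa [hqν] at this
  obtain ⟨σ, τ, _, σ1, σ2, σ3, -, -, σ4, σ5, -, σ6, σ7⟩ := exists_sqrt hνn hsν ρ
  have hqcom : Commute q ν := by rw [Commute, SemiconjBy, hqν, hνq]
  have hqσ := (σ6 q hqcom).1
  have hqτ := (σ6 q hqcom).2.1
  have hnτ : ∀ i, Commute (n i) τ := fun i => (σ6 (n i) (by
    rw [Commute, SemiconjBy, hν, mul_sub, sub_mul, hnq, hqn, hnsgg, hsggn])).2.1
  have hρτ := (σ7 hρν).2
  obtain ⟨j, hj⟩ : ∃ j, j = g * τ := ⟨_, rfl⟩
  have hjq : j * q = j := by rw [hj, mul_assoc, ← hqτ.eq, ← mul_assoc, hgq]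
  have hsj : star j = τ * star g := by rw [hj, star_mul, σ5]
  have hqsj : q * star j = star j := by
    have := congrArg star hjq
    rwa [star_mul, hsq] at this
  have hsgg : star g * g = q * (σ * σ) := by
    rw [σ1, mul_sub, mul_one, hqν, hν, sub_sub_cancel]
  have hjj : star j * j = q := by
    calc star j * j = τ * (star g * g) * τ := by rw [hsj, hj]; simp only [mul_assoc]
      _ = τ * q * σ * (σ * τ) := by rw [hsgg]; simp only [mul_assoc]
      _ = q * (τ * σ) := by rw [σ2, mul_one, ← hqτ.eq, mul_assoc]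
      _ = q := by rw [σ3, mul_one]
  have hPj : ∀ i, P i * j = j * n i := by
    intro i
    rw [hj, ← mul_assoc, hPg, ← hgn, mul_assoc, mul_assoc, (hnτ i).eq]
  have hsjP : ∀ i, star j * P i = n i * star j := by
    intro i
    have h1 := congrArg star (hPj (s.symm i))
    rw [star_mul, star_mul, hPs, hns, Equiv.apply_symm_apply] at h1
    exact h1
  obtain ⟨q', hq'⟩ : ∃ q', q' = j * star j := ⟨_, rfl⟩
  have hsq' : star q' = q' := by rw [hq', star_mul, star_star]
  have hq'q' : q' * q' = q' := by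
    calc q' * q' = j * (star j * j) * star j := by rw [hq']; simp only [mul_assoc]
      _ = q' := by rw [hjj, hjq, hq']
  have hPq' : ∀ i, P i * q' = q' * P i := by
    intro i
    rw [hq', ← mul_assoc, hPj, mul_assoc, mul_assoc, hsjP]
  have hρj : ρ j = ρ q := by rw [hj, map_mul, hρτ, mul_one, hρg]
  have hρsj : ρ (star j) = ρ q := by rw [hsj, map_mul, hρτ, one_mul, hρsg]
  -- the polar decomposition
  obtain ⟨w, hw⟩ : ∃ w, w = q * j := ⟨_, rfl⟩
  have hsw : star w = star j * q := by rw [hw, star_mul, hsq]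
  have hqw : q * w = w := by rw [hw, ← mul_assoc, hqq]
  have hwq : w * q = w := by rw [hw, mul_assoc, hjq]
  have hqsw : q * star w = star w := by rw [hsw, ← mul_assoc, hqsj]
  have hswq : star w * q = star w := by rw [hsw, mul_assoc, hqq]
  have hρw : ρ w = ρ q := by rw [hw, map_mul, hρj, ← map_mul, hqq]
  have hρsw : ρ (star w) = ρ q := by rw [hsw, map_mul, hρsj, ← map_mul, hqq]
  obtain ⟨μ, hμ⟩ : ∃ μ, μ = q - w * star w := ⟨_, rfl⟩
  have hsμ : star μ = μ := by rw [hμ, star_sub, hsq, star_mul, star_star]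
  have hqμ : q * μ = μ := by rw [hμ, mul_sub, hqq, ← mul_assoc, hqw]
  have hμq : μ * q = μ := by rw [hμ, sub_mul, hqq, mul_assoc, hswq]
  have hρμ : ρ μ = 0 := by rw [hμ, map_sub, map_mul, hρw, hρsw, ← map_mul, hqq, sub_self]
  have hμn : IsNilpotent μ := by
    have := hN μ hρμ
    rwa [hqμ] at this
  obtain ⟨σ', τ', κ, t1, t2, t3, t4, t5, t6, t7, t8, t9, -⟩ := exists_sqrt hμn hsμ ρ
  have hqcom' : Commute q μ := by rw [Commute, SemiconjBy, hqμ, hμq]
  have hqσ' := (t9 q hqcom').1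
  have hqτ' := (t9 q hqcom').2.1
  have hqκ := (t9 q hqcom').2.2
  have hww : w * star w = q * (σ' * σ') := by
    rw [t1, mul_sub, mul_one, hqμ, hμ, sub_sub_cancel]
  -- the inverse of `w` in the corner
  obtain ⟨ω, hω⟩ : ∃ ω, ω = q - w := ⟨_, rfl⟩
  have hωn : IsNilpotent ω := by
    have := hN ω (by rw [hω, map_sub, hρw, sub_self])
    have e0 : q * ω = ω := by rw [hω, mul_sub, hqq, hqw]
    rwa [e0] at this
  obtain ⟨u, hu⟩ := hωn.isUnit_one_sub
  have hwu : w = q * u := by rw [hu, mul_sub, mul_one, hω, mul_sub, hqq, hqw, sub_sub_cancel]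
  have huq : Commute q (u : R) := by
    rw [hu, Commute, SemiconjBy, mul_sub, sub_mul, mul_one, one_mul, hω, mul_sub, sub_mul, hqq,
      hqw, hwq]
  have huq' : Commute q ((u⁻¹ : Rˣ) : R) := huq.units_inv_right
  obtain ⟨θ, hθ⟩ : ∃ θ, θ = star w * τ' := ⟨_, rfl⟩
  have hsθ : star θ = τ' * w := by rw [hθ, star_mul, star_star, t7]
  have hqθ : q * θ = θ := by rw [hθ, ← mul_assoc, hqsw]
  have hθq : θ * q = θ := by rw [hθ, mul_assoc, ← hqτ'.eq, ← mul_assoc, hswq]
  have hwθ : w * θ = q * σ' := by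
    calc w * θ = (w * star w) * τ' := by rw [hθ, mul_assoc]
      _ = q * σ' * (σ' * τ') := by rw [hww]; simp only [mul_assoc]
      _ = _ := by rw [t2, mul_one]
  have hsθθ : star θ * θ = q := by
    calc star θ * θ = τ' * (w * star w) * τ' := by rw [hsθ, hθ]; simp only [mul_assoc]
      _ = τ' * q * σ' * (σ' * τ') := by rw [hww]; simp only [mul_assoc]
      _ = q * (τ' * σ') := by rw [t2, mul_one, ← hqτ'.eq, mul_assoc]
      _ = q := by rw [t3, mul_one]
  have hθsθ : θ * star θ = q := by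
    have h1 : w * (star w * (τ' * τ')) = q := by
      calc w * (star w * (τ' * τ')) = (w * star w) * (τ' * τ') := by rw [mul_assoc]
        _ = q * σ' * (σ' * τ') * τ' := by rw [hww]; simp only [mul_assoc]
        _ = q * (σ' * τ') := by rw [t2, mul_one, mul_assoc, t2]
        _ = q := by rw [t2, mul_one]
    have h2 : (q * ((u⁻¹ : Rˣ) : R)) * w = q := by
      rw [hwu, huq'.eq, mul_assoc, ← mul_assoc q q, hqq, huq.eq, ← mul_assoc, Units.inv_mul,
        one_mul]
    have h3 : star w * (τ' * τ') = q * ((u⁻¹ : Rˣ) : R) := by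
      calc star w * (τ' * τ') = q * (star w * (τ' * τ')) := by rw [← mul_assoc q, hqsw]
        _ = (q * ((u⁻¹ : Rˣ) : R)) * (w * (star w * (τ' * τ'))) := by
            rw [← mul_assoc _ w, h2]
        _ = q * ((u⁻¹ : Rˣ) : R) := by
            rw [h1, mul_assoc, ← huq'.eq, ← mul_assoc, hqq]
    calc θ * star θ = star w * (τ' * τ') * w := by rw [hsθ, hθ]; simp only [mul_assoc]
      _ = q := by rw [h3, h2]
  obtain ⟨j₂, hj₂⟩ : ∃ j₂, j₂ = j * θ := ⟨_, rfl⟩
  have hsj₂ : star j₂ = star θ * star j := by rw [hj₂, star_mul]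
  have hj₂q : j₂ * q = j₂ := by rw [hj₂, mul_assoc, hθq]
  have hj₂j₂ : star j₂ * j₂ = q := by
    calc star j₂ * j₂ = star θ * (star j * j) * θ := by rw [hsj₂, hj₂]; simp only [mul_assoc]
      _ = star θ * (q * θ) := by rw [hjj, mul_assoc]
      _ = q := by rw [hqθ, hsθθ]
  have hj₂sj₂ : j₂ * star j₂ = q' := by
    calc j₂ * star j₂ = j * (θ * star θ) * star j := by rw [hsj₂, hj₂]; simp only [mul_assoc]
      _ = q' := by rw [hθsθ, hjq, hq']
  have hqj₂ : q * j₂ = q * σ' := by rw [hj₂, ← mul_assoc, ← hw, hwθ]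
  have hsj₂q : star j₂ * q = q * σ' := by
    have := congrArg star hqj₂
    rw [star_mul, star_mul, hsq, t6] at this
    rw [this, hqσ'.eq]
  obtain ⟨h, hh⟩ : ∃ h, h = q + j₂ := ⟨_, rfl⟩
  have hsh : star h = q + star j₂ := by rw [hh, star_add, hsq]
  have hhq : h * q = h := by rw [hh, add_mul, hqq, hj₂q]
  have hhh : star h * h = q * (1 + σ') + q * (1 + σ') := by
    rw [hsh, hh, add_mul, mul_add, mul_add, hqq, hqj₂, hsj₂q, hj₂j₂, mul_add, mul_one]
    abel
  have hshq : star h * q = q * (1 + σ') := by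
    rw [hsh, add_mul, hqq, hsj₂q, mul_add, mul_one]
  obtain ⟨U, hU⟩ : ∃ U, U = h * κ * star h - 1 := ⟨_, rfl⟩
  have hsU : star U = U := by
    rw [hU, star_sub, star_one, star_mul, star_mul, star_star, t8, mul_assoc]
  have e1 : κ * (q * (1 + σ')) = q := by
    rw [← mul_assoc, ← hqκ.eq, mul_assoc, t5, mul_one]
  have hUq : U * q = j₂ := by
    rw [hU, sub_mul, one_mul, mul_assoc, hshq, mul_assoc, e1, hhq, hh, add_sub_cancel_left]
  have hUU : U * U = 1 := by
    have h1 : h * κ * star h * (h * κ * star h) = h * κ * star h + h * κ * star h := by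
      calc h * κ * star h * (h * κ * star h) = h * (κ * (star h * h)) * (κ * star h) := by
            simp only [mul_assoc]
        _ = h * (q + q) * (κ * star h) := by rw [hhh, mul_add, e1]
        _ = _ := by rw [mul_add, hhq, add_mul]; simp only [mul_assoc]
    rw [hU, mul_sub, sub_mul, h1, mul_one, one_mul]
    abel
  have hqU : q * U = star j₂ := by
    have := congrArg star hUq
    rwa [star_mul, hsq, hsU] at this
  have hUqU : U * q * U = q' := by
    have : U * q * U = (U * q) * (q * U) := by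
      rw [mul_assoc U q (q * U), ← mul_assoc q q, hqq, mul_assoc]
    rw [this, hUq, hqU, hj₂sj₂]
  have hF : (1 - q') * (1 - q') = 1 - q' := by
    rw [mul_sub, mul_one, sub_mul, one_mul, hq'q', sub_self, sub_zero]
  have hPF : ∀ i, P i * (1 - q') = (1 - q') * P i := by
    intro i
    rw [mul_sub, mul_one, sub_mul, one_mul, hPq']
  refine ⟨fun i => U * (P i * (1 - q')) * U, ?_, ?_, ?_, ?_⟩
  · intro i k
    have h1 : U * (P i * (1 - q')) * U * (U * (P k * (1 - q')) * U) =
        U * (P i * P k * (1 - q')) * U := by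
      calc U * (P i * (1 - q')) * U * (U * (P k * (1 - q')) * U) =
          U * (P i * (1 - q')) * (U * U) * (P k * (1 - q')) * U := by simp only [mul_assoc]
        _ = U * (P i * ((1 - q') * P k) * (1 - q')) * U := by
            rw [hUU, mul_one]; simp only [mul_assoc]
        _ = U * (P i * P k * ((1 - q') * (1 - q'))) * U := by
            rw [← hPF]; simp only [mul_assoc]
        _ = _ := by rw [hF]
    rw [h1, hP]
    split_ifs with hik
    · rfl
    · rw [zero_mul, mul_zero, zero_mul]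
  · intro i
    rw [star_mul, star_mul, star_mul, hsU, hPs, star_sub, star_one, hsq', ← hPF]
    simp only [mul_assoc]
  · rw [← Finset.sum_mul, ← Finset.mul_sum, ← Finset.sum_mul, hP1, one_mul, ← hUqU, mul_sub,
      mul_one, sub_mul, hUU]
    congr 1
    calc U * (U * q * U) * U = (U * U) * q * (U * U) := by simp only [mul_assoc]
      _ = q := by rw [hUU, one_mul, mul_one]
  · intro i
    exact ⟨U, (1 - q') * U, by simp only [mul_assoc]⟩

end Pool.Agent.R904
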