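import Pool.Agent.R904.SDNil
import Pool.Agent.R904.Witt

/-!
# Witt cancellation for self-dual Chow-Kunneth decompositions
-/

open CategoryTheory AlgebraicGeometry

universe u v w

namespace Pool.Agent.R904

open Pool.Agent.H914 Pool.Agent.H914.VarClass Pool.Agent.H914.VarClass.Obj Pool.Agent.W492.BB
  Pool.Agent.W550.Corr Pool.Agent.TH133 Pool.Agent.TH829.Kim

set_option linter.unusedSectionVars false

/-- Sums indexed symmetrically. -/
lemma sum_symm {M : Type*} [AddCommMonoid M] (f : ℕ → M) (d : ℕ) :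
    (∑ i : Fin d, (f i + f (2 * d - i))) + f d = ∑ n ∈ Finset.range (2 * d + 1), f n := by
  rw [Fin.sum_univ_eq_sum_range (fun i => f i + f (2 * d - i)) d, Finset.sum_add_distrib,
    show 2 * d + 1 = d + (d + 1) by omega, Finset.sum_range_add, Finset.sum_range_succ',
    add_assoc, add_zero]
  congr 2
  rw [← Finset.sum_range_reflect (fun i => f (2 * d - i))]
  apply Finset.sum_congr rfl
  intro j hj
  rw [Finset.mem_range] at hj
  congr 1
  omega

variable {k : Type u} [Field k] {𝒱 : VarClass k}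

variable {C : TheoryData.{u, v, 0} 𝒱 ℚ} [hC : IsChowProj C] {K : Type w} [Field K]
  {H : WeilTheoryData.{u, v, w} C K} [hH : IsWeilProj H] {X Y Z W : 𝒱.Obj}

section chow

include hC

lemma smul_comp' (c : ℚ) (Γ : C.A (X.prod Y)) (Δ : C.A (Y.prod Z)) :
    C.comp (c • Γ) Δ = c • C.comp Γ Δ := LinearMap.map_smul₂ (compL C) _ _ _

lemma comp_smul' (c : ℚ) (Γ : C.A (X.prod Y)) (Δ : C.A (Y.prod Z)) :
    C.comp Γ (c • Δ) = c • C.comp Γ Δ := map_smul (compL C Γ) _ _

lemma ups_mem {e : ℕ} (hd : Y.dim = X.dim + 2 * e) (c : ℚ) {E : C.A (X.prod Y)}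
    (hE : E ∈ C.gr (X.prod Y) (X.dim + (e : ℤ))) {g : C.A (X.prod X)}
    (hg : g ∈ C.gr (X.prod X) X.dim) :
    (c • C.comp (C.comp (tp C E) g) E : C.A (Y.prod Y)) ∈ C.gr (Y.prod Y) Y.dim := by
  apply Submodule.smul_mem
  have hF : tp C E ∈ C.gr (Y.prod X) ((Y.dim : ℤ) + -(e : ℤ)) := by
    have := tp_mem C hE
    rwa [show (Y.dim : ℤ) + -(e : ℤ) = X.dim + (e : ℤ) by rw [hd]; push_cast; ring]
  have hg' : g ∈ C.gr (X.prod X) (X.dim + 0) := by rw [add_zero]; exact hg
  have h := comp_mem C (comp_mem C hF hg') hE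
  rwa [show (-(e : ℤ) + 0 + (e : ℤ)) = 0 by ring, add_zero] at h

lemma dwn_mem {e : ℕ} (hd : Y.dim = X.dim + 2 * e) (c : ℚ) {E : C.A (X.prod Y)}
    (hE : E ∈ C.gr (X.prod Y) (X.dim + (e : ℤ))) {g : C.A (Y.prod Y)}
    (hg : g ∈ C.gr (Y.prod Y) Y.dim) :
    (c • C.comp (C.comp E g) (tp C E) : C.A (X.prod X)) ∈ C.gr (X.prod X) X.dim := by
  apply Submodule.smul_mem
  have hF : tp C E ∈ C.gr (Y.prod X) ((Y.dim : ℤ) + -(e : ℤ)) := by
    have := tp_mem C hE
    rwa [show (Y.dim : ℤ) + -(e : ℤ) = X.dim + (e : ℤ) by rw [hd]; push_cast; ring]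
  have hg' : g ∈ C.gr (Y.prod Y) (Y.dim + 0) := by rw [add_zero]; exact hg
  have h := comp_mem C (comp_mem C hE hg') hF
  rwa [show ((e : ℤ) + 0 + -(e : ℤ)) = 0 by ring, add_zero] at h

/-- The self-correspondence of `Y` induced by one of `X`. -/
noncomputable def ups {e : ℕ} (hd : Y.dim = X.dim + 2 * e) (c : ℚ) {E : C.A (X.prod Y)}
    (hE : E ∈ C.gr (X.prod Y) (X.dim + (e : ℤ))) (g : cor0 C X) : cor0 C Y :=
  ofA (c • C.comp (C.comp (tp C E) (toA g)) E) (ups_mem hd c hE g.2)

/-- The self-correspondence of `X` induced by one of `Y`. -/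
noncomputable def dwn {e : ℕ} (hd : Y.dim = X.dim + 2 * e) (c : ℚ) {E : C.A (X.prod Y)}
    (hE : E ∈ C.gr (X.prod Y) (X.dim + (e : ℤ))) (g : cor0 C Y) : cor0 C X :=
  ofA (c • C.comp (C.comp E (toA g)) (tp C E)) (dwn_mem hd c hE g.2)

lemma toA_star (a : cor0 C X) : toA (star a) = tp C (toA a) := rfl

variable {e : ℕ} (hd : Y.dim = X.dim + 2 * e) {c : ℚ} (hc : c ≠ 0) {E : C.A (X.prod Y)}
    (hE : E ∈ C.gr (X.prod Y) (X.dim + (e : ℤ))) (hEE : C.comp E (tp C E) = c • dg C X)

lemma toA_ups (a : cor0 C X) : toA (ups hd c hE a) = c • C.comp (C.comp (tp C E) (toA a)) E := rfl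

lemma toA_dwn (a : cor0 C Y) : toA (dwn hd c hE a) = c • C.comp (C.comp E (toA a)) (tp C E) := rfl

include hc hEE in
lemma ups_mul (a b : cor0 C X) : ups hd c⁻¹ hE a * ups hd c⁻¹ hE b = ups hd c⁻¹ hE (a * b) := by
  apply toA_inj
  rw [toA_mul, toA_ups, toA_ups, toA_ups, toA_mul]
  rw [smul_comp', comp_smul', comp_assoc C (C.comp (tp C E) _) E, ← comp_assoc C E,
    ← comp_assoc C E, hEE, smul_comp', dg_comp, smul_comp', comp_smul', smul_smul, smul_smul,
    inv_mul_cancel_right₀ hc]
  simp only [comp_assoc]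

lemma ups_star (a : cor0 C X) : star (ups hd c⁻¹ hE a) = ups hd c⁻¹ hE (star a) := by
  apply toA_inj
  rw [toA_star, toA_ups, toA_ups, toA_star, tp_smul, tp_comp C (ch_comm C), tp_comp C (ch_comm C),
    tp_tp, comp_assoc]

lemma ups_add (a b : cor0 C X) : ups hd c⁻¹ hE (a + b) = ups hd c⁻¹ hE a + ups hd c⁻¹ hE b := by
  apply toA_inj
  rw [map_add, toA_ups, toA_ups, toA_ups, map_add, comp_add, add_comp, smul_add]

lemma ups_zero : ups hd c⁻¹ hE (0 : cor0 C X) = 0 := by
  have := ups_add hd (c := c) hE (0 : cor0 C X) 0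
  rwa [add_zero, left_eq_add] at this

include hc hEE in
lemma dwn_ups (a : cor0 C X) : dwn hd c⁻¹ hE (ups hd c⁻¹ hE a) = a := by
  apply toA_inj
  have h1 : C.comp (C.comp E (C.comp (C.comp (tp C E) (toA a)) E)) (tp C E) =
      C.comp (C.comp (C.comp E (tp C E)) (toA a)) (C.comp E (tp C E)) := by
    simp only [comp_assoc]
  rw [toA_dwn, toA_ups, comp_smul', smul_comp', h1, hEE, smul_comp', dg_comp, comp_smul',
    smul_comp', comp_dg, smul_smul, smul_smul, smul_smul]
  rw [show c⁻¹ * c⁻¹ * c * c = 1 by field_simp, one_smul]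

include hc hEE in
lemma ups_dwn (a : cor0 C Y) : ups hd c⁻¹ hE (dwn hd c⁻¹ hE a) =
    ups hd c⁻¹ hE 1 * a * ups hd c⁻¹ hE 1 := by
  apply toA_inj
  rw [toA_ups, toA_dwn, toA_mul, toA_mul, toA_ups, toA_one, comp_dg, comp_smul', smul_comp',
    smul_comp', comp_smul', comp_smul']
  simp only [comp_assoc]

include hc hEE in
lemma dwn_mul (a b : cor0 C Y) : dwn hd c⁻¹ hE a * dwn hd c⁻¹ hE b =
    dwn hd c⁻¹ hE (a * ups hd c⁻¹ hE 1 * b) := by
  apply toA_inj
  rw [toA_mul, toA_dwn, toA_dwn, toA_dwn, toA_mul, toA_mul, toA_ups, toA_one, comp_dg,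
    smul_comp', smul_comp', comp_smul', comp_smul', comp_smul', smul_comp']
  simp only [comp_assoc]

lemma dwn_star (a : cor0 C Y) : star (dwn hd c⁻¹ hE a) = dwn hd c⁻¹ hE (star a) := by
  apply toA_inj
  rw [toA_star, toA_dwn, toA_dwn, toA_star, tp_smul, tp_comp C (ch_comm C), tp_comp C (ch_comm C),
    tp_tp, comp_assoc]

lemma dwn_add (a b : cor0 C Y) : dwn hd c⁻¹ hE (a + b) = dwn hd c⁻¹ hE a + dwn hd c⁻¹ hE b := by
  apply toA_inj
  rw [map_add, toA_dwn, toA_dwn, toA_dwn, map_add, comp_add, add_comp, smul_add]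

/-- `dwn` as an additive map. -/
noncomputable def dwnA (hd : Y.dim = X.dim + 2 * e) (c : ℚ) {E : C.A (X.prod Y)}
    (hE : E ∈ C.gr (X.prod Y) (X.dim + (e : ℤ))) : cor0 C Y →+ cor0 C X :=
  AddMonoidHom.mk' (dwn hd c⁻¹ hE) (dwn_add hd hE)

end chow

include hC hH

lemma rho_toA (a : cor0 C X) (x : H.A X) : rho H X a x = H.act (H.cl (toA a)) x := rfl

lemma act_smul_zero (q : ℚ) {Γ : C.A (X.prod Y)} {x : H.A X} (h : H.act (H.cl Γ) x = 0) :
    H.act (H.cl (q • Γ)) x = 0 := by
  have h1 : q • Γ = C.comp Γ (q • dg C Y) := by rw [comp_smul', comp_dg]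
  rw [h1, actH_comp, h, TheoryData.act_map_zero]

lemma dwn_act {e : ℕ} (hd : Y.dim = X.dim + 2 * e) {c : ℚ} {E : C.A (X.prod Y)}
    (hE : E ∈ C.gr (X.prod Y) (X.dim + (e : ℤ))) {a : cor0 C Y} {m : ℤ}
    (h : ∀ y ∈ H.gr Y (m + 2 * e), rho H Y a y = 0) (x : H.A X) (hx : x ∈ H.gr X m) :
    rho H X (dwn hd c hE a) x = 0 := by
  rw [rho_toA, toA_dwn]
  apply act_smul_zero
  rw [actH_comp, actH_comp]
  have h4 : H.act (H.cl E) x ∈ H.gr Y (m + 2 * e) := Pool.Agent.W492.BB.actH_mem H hE hx
  have h5 := h _ h4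
  rw [rho_toA] at h5
  rw [h5, TheoryData.act_map_zero]

lemma ups_act {e : ℕ} (hd : Y.dim = X.dim + 2 * e) {c : ℚ} {E : C.A (X.prod Y)}
    (hE : E ∈ C.gr (X.prod Y) (X.dim + (e : ℤ))) {a : cor0 C X} {m : ℤ}
    (h : ∀ y ∈ H.gr X (m - 2 * e), rho H X a y = 0) (x : H.A Y) (hx : x ∈ H.gr Y m) :
    rho H Y (ups hd c hE a) x = 0 := by
  rw [rho_toA, toA_ups]
  apply act_smul_zero
  rw [actH_comp, actH_comp]
  have hF : tp C E ∈ C.gr (Y.prod X) ((Y.dim : ℤ) + -(e : ℤ)) := by
    have := tp_mem C hE
    rwa [show (Y.dim : ℤ) + -(e : ℤ) = X.dim + (e : ℤ) by rw [hd]; push_cast; ring]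
  have h4 : H.act (H.cl (tp C E)) x ∈ H.gr X (m - 2 * e) := by
    have := Pool.Agent.W492.BB.actH_mem H hF hx
    rwa [show m + 2 * -(e : ℤ) = m - 2 * e by ring] at this
  have h5 := h _ h4
  rw [rho_toA] at h5
  rw [h5, TheoryData.act_map_zero]

/-- Self-dual systems in the corner of a symmetric idempotent. -/
lemma corner_system {q : cor0 C Y} (hqq : q * q = q) (hsq : star q = q)
    (hN : NilFac (rho H Y) q) (κ : ℕ → cor0 C Y)
    (hκ : ∀ m < Y.dim, ∀ (l : ℤ), ∀ y ∈ H.gr Y l, rho H Y (κ m) y =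
      if l = m then rho H Y q y else 0) :
    ∃ Q : Fin Y.dim → cor0 C Y, (∀ i j, Q i * Q j = if i = j then Q i else 0) ∧
      (∀ i j, Q i * star (Q j) = 0) ∧ (∀ i j, star (Q i) * Q j = 0) ∧
      (∀ i, q * Q i = Q i ∧ Q i * q = Q i) ∧
      (∀ (i : Fin Y.dim) (l : ℤ), l ≠ ((i : ℕ) : ℤ) → ∀ y ∈ H.gr Y l, rho H Y (Q i) y = 0) ∧
      (∀ l : ℤ, l ≠ Y.dim → ∀ y ∈ H.gr Y l,
        rho H Y (q - ∑ i, (Q i + star (Q i))) y = 0) := by
  obtain ⟨α, hα⟩ : ∃ α : Fin Y.dim → cor0 C Y, ∀ i, α i = q * κ i * q := ⟨_, fun _ => rfl⟩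
  have hqq' : ∀ y, rho H Y q (rho H Y q y) = rho H Y q y := by
    intro y
    rw [← Module.End.mul_apply, ← map_mul, hqq]
  have hact : ∀ (i : Fin Y.dim) (l : ℤ), ∀ y ∈ H.gr Y l, rho H Y (α i) y =
      if l = ((i : ℕ) : ℤ) then rho H Y q y else 0 := by
    intro i l y hy
    rw [hα, map_mul, map_mul, Module.End.mul_apply, Module.End.mul_apply,
      hκ i i.2 l _ (rho_mem q hy)]
    split_ifs with h
    · rw [hqq', hqq']
    · rw [map_zero]
  have hst : ∀ (i : Fin Y.dim) (l : ℤ), l ≠ 2 * Y.dim - ((i : ℕ) : ℤ) → ∀ y ∈ H.gr Y l,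
      rho H Y (star (α i)) y = 0 := by
    intro i l hl y hy
    apply rho_star_zero (m := 2 * Y.dim - l) (a := α i)
    · intro x hx
      rw [hact i _ x hx, if_neg (by omega)]
    · rwa [sub_sub_cancel]
  obtain ⟨Q, q1, q2, q3, q4, q5⟩ := exists_isotropic_of_nil (rho H Y)
    (fun x hx => rho_star_eq_zero hx) α (fun i => by
      rw [hα]; exact (hN.mul_right (κ i)).mul_right q) (by
      intro i j
      apply ext_gr H
      intro l y hy
      rw [map_mul, Module.End.mul_apply, hact j l y hy]
      by_cases hij : i = j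
      · rw [if_pos hij, hact i l y hy, hij]
        split_ifs with hl
        · rw [hact j l _ (rho_mem q hy), if_pos hl, hqq']
        · rw [map_zero]
      · rw [if_neg hij, LinearMap.zero_apply]
        split_ifs with hl
        · rw [hact i l _ (rho_mem q hy), if_neg]
          intro hl'
          apply hij
          apply Fin.ext
          exact_mod_cast hl'.symm.trans hl
        · rw [map_zero]) (by
      intro i j
      apply ext_gr H
      intro l y hy
      rw [LinearMap.zero_apply, map_mul, Module.End.mul_apply]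
      by_cases hl : l = 2 * Y.dim - ((j : ℕ) : ℤ)
      · rw [hact i l _ (rho_mem _ hy), if_neg]
        have := i.2
        have := j.2
        omega
      · rw [hst j l hl y hy, map_zero]) (by
      intro i j
      apply ext_gr H
      intro l y hy
      rw [LinearMap.zero_apply, map_mul, Module.End.mul_apply, hact j l y hy]
      split_ifs with hl
      · apply hst i l _ _ (rho_mem q hy)
        have := i.2
        have := j.2
        omega
      · rw [map_zero]) q hsq (fun i => by rw [hα, ← mul_assoc, ← mul_assoc, hqq])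
      (fun i => by rw [hα, mul_assoc, mul_assoc, hqq, ← mul_assoc]) Finset.univ
  have q6 : ∀ i, rho H Y (star (Q i)) = rho H Y (star (α i)) := by
    intro i
    have := rho_star_eq_zero (H := H) (a := Q i - α i)
      (by rw [map_sub, q4 i (Finset.mem_univ i), sub_self])
    rwa [star_sub, map_sub, sub_eq_zero] at this
  have key : ∀ l : ℤ, l < Y.dim → ∀ y ∈ H.gr Y l,
      rho H Y (q - ∑ i, (Q i + star (Q i))) y = 0 := by
    intro l hl y hy
    by_cases hy0 : y = 0
    · rw [hy0, map_zero]
    have h0 := nonneg_of_mem H hy hy0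
    obtain ⟨l, rfl⟩ := Int.eq_ofNat_of_zero_le h0
    have hl' : l < Y.dim := by exact_mod_cast hl
    rw [map_sub, LinearMap.sub_apply, map_sum, LinearMap.sum_apply,
      Finset.sum_eq_single (⟨l, hl'⟩ : Fin Y.dim)]
    · rw [map_add, LinearMap.add_apply, q4 _ (Finset.mem_univ _), q6, hact _ _ y hy, if_pos rfl,
        hst _ _ _ y hy, add_zero, sub_self]
      change (l : ℤ) ≠ 2 * Y.dim - (l : ℤ)
      omega
    · intro j _ hj
      have h1 : (l : ℤ) ≠ ((j : ℕ) : ℤ) := by
        intro h
        apply hj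
        apply Fin.ext
        exact_mod_cast h.symm
      rw [map_add, LinearMap.add_apply, q4 _ (Finset.mem_univ _), q6, hact _ _ y hy, if_neg h1,
        hst _ _ _ y hy, add_zero]
      have := j.2
      omega
    · intro h
      exact absurd (Finset.mem_univ _) h
  refine ⟨Q, fun i j => q1 i (Finset.mem_univ i) j (Finset.mem_univ j),
    fun i j => q2 i (Finset.mem_univ i) j (Finset.mem_univ j),
    fun i j => q3 i (Finset.mem_univ i) j (Finset.mem_univ j),
    fun i => q5 i (Finset.mem_univ i), ?_, ?_⟩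
  · intro i l hl y hy
    rw [q4 i (Finset.mem_univ i), hact i l y hy, if_neg hl]
  · intro l hl y hy
    rcases lt_or_gt_of_ne hl with h | h
    · exact key l h y hy
    · have hs : star (q - ∑ i, (Q i + star (Q i))) = q - ∑ i, (Q i + star (Q i)) := by
        rw [star_sub, hsq, star_sum]
        congr 1
        apply Finset.sum_congr rfl
        intro i _
        rw [star_add, star_star, add_comm]
      rw [← hs]
      apply rho_star_zero (m := 2 * Y.dim - l)
      · exact key _ (by omega)
      · rwa [sub_sub_cancel]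

/-- **Witt cancellation for self-dual Chow-Kunneth decompositions.** -/
theorem selfDual_iff_of_orthogonal {e : ℕ} (hd : Y.dim = X.dim + 2 * e) {c : ℚ} (hc : c ≠ 0)
    {E : C.A (X.prod Y)} (hE : C.Deg ((X.dim : ℤ) + e) E)
    (hEE : C.comp E (tp C E) = c • dg C X)
    (hnil : NilMotive H (dg C Y - c⁻¹ • C.comp (tp C E) E)) :
    (∃ π, IsCK H Y π ∧ IsSelfDual C π) ↔ (∃ π, IsCK H X π ∧ IsSelfDual C π) ∧
      ∀ m : ℕ, ∃ κ : C.A (Y.prod Y), C.Deg Y.dim κ ∧ ∀ (l : ℤ) (y : H.A Y), H.Deg l y →
        H.act (H.cl κ) y =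
          if l = m then H.act (H.cl (dg C Y - c⁻¹ • C.comp (tp C E) E)) y else 0 := by
  have hE' : E ∈ C.gr (X.prod Y) (X.dim + (e : ℤ)) := hE
  obtain ⟨p, hp⟩ : ∃ p, p = ups hd c⁻¹ hE' 1 := ⟨_, rfl⟩
  have hpp : p * p = p := by rw [hp, ups_mul hd hc hE' hEE, mul_one]
  have hsp : star p = p := by rw [hp, ups_star, star_one]
  obtain ⟨q, hq⟩ : ∃ q, q = 1 - p := ⟨_, rfl⟩
  have hqq : q * q = q := by
    rw [hq, mul_sub, mul_one, sub_mul, one_mul, hpp, sub_self, sub_zero]
  have hsq : star q = q := by rw [hq, star_sub, star_one, hsp]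
  have hpq : p * q = 0 := by rw [hq, mul_sub, mul_one, hpp, sub_self]
  have hqp : q * p = 0 := by rw [hq, sub_mul, one_mul, hpp, sub_self]
  have htq : toA q = dg C Y - c⁻¹ • C.comp (tp C E) E := by
    rw [hq, hp, map_sub, toA_one, toA_ups, toA_one, comp_dg]
  rw [← htq] at hnil ⊢
  have hN : NilFac (rho H Y) q := by
    intro x hx
    obtain ⟨-, -, h3⟩ := hnil
    have h4 := h3 (toA x) x.2 (rho_eq_zero_iff.1 hx)
    have h5 : IsNilpotent (q * x * q) := by
      rw [isNilpotent_cor0]
      have e1 : C.comp (C.comp (toA q) (toA x)) (toA q) = toA (q * x * q) := by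
        rw [toA_mul, toA_mul, comp_assoc]
      rw [e1] at h4
      exact h4
    have h6 := isNilpotent_comm h5
    rwa [← mul_assoc, hqq] at h6
  constructor
  · rintro ⟨π, hπ, hsd⟩
    obtain ⟨P, hP⟩ : ∃ P : ℕ → cor0 C Y, ∀ n, toA (P n) = π n :=
      ⟨fun n => ofA (π n) (hπ.deg n), fun n => rfl⟩
    have hPact : ∀ (n : ℕ) (l : ℤ) (y : H.A Y), y ∈ H.gr Y l → rho H Y (P n) y =
        if l = n then y else 0 := by
      intro n l y hy
      rw [rho_toA, hP]
      exact hπ.actH_eq n l hy
    have hPP : ∀ m n, P m * P n = if m = n then P m else 0 := by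
      intro m n
      apply toA_inj
      rw [toA_mul, hP, hP, hπ.comp_eq]
      by_cases h : m = n
      · subst h
        rw [if_pos rfl, if_pos rfl, hP]
      · rw [if_neg (Ne.symm h), if_neg h, map_zero]
    have hPs : ∀ n ≤ 2 * Y.dim, star (P n) = P (2 * Y.dim - n) := by
      intro n hn
      apply toA_inj
      rw [toA_star, hP, hP]
      exact hsd n hn
    have hPsum : ∑ n ∈ Finset.range (2 * Y.dim + 1), P n = 1 := by
      apply toA_inj
      rw [map_sum, toA_one, ← hπ.sum]
      exact Finset.sum_congr rfl fun n _ => hP n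
    refine ⟨?_, ?_⟩
    · obtain ⟨Q, Q1, Q2, Q3, Q4, Q5, Q6⟩ := corner_system hqq hsq hN (fun m => q * P m) (by
        intro m hm l y hy
        rw [map_mul, Module.End.mul_apply, hPact m l y hy]
        split_ifs
        · rfl
        · rw [map_zero])
      obtain ⟨Q0, hQ0⟩ : ∃ Q0, Q0 = q - ∑ i, (Q i + star (Q i)) := ⟨_, rfl⟩
      rw [← hQ0] at Q6
      have Q1s : ∀ i j, star (Q i) * star (Q j) = if i = j then star (Q i) else 0 := by
        intro i j
        rw [← star_mul, Q1]
        by_cases h : i = j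
        · rw [if_pos h.symm, if_pos h, h]
        · rw [if_neg h, if_neg (Ne.symm h), star_zero]
      have Q4s : ∀ i, q * star (Q i) = star (Q i) ∧ star (Q i) * q = star (Q i) := by
        intro i
        have h1 := congrArg star (Q4 i).1
        have h2 := congrArg star (Q4 i).2
        rw [star_mul, hsq] at h1 h2
        exact ⟨h2, h1⟩
      have r1 : ∀ i, Q i * Q0 = 0 := by
        intro i
        rw [hQ0, mul_sub, (Q4 i).2, Finset.mul_sum, Finset.sum_eq_single i]
        · rw [mul_add, Q1, if_pos rfl, Q2, add_zero, sub_self]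
        · intro j _ hj
          rw [mul_add, Q1, if_neg (Ne.symm hj), Q2, add_zero]
        · intro h; exact absurd (Finset.mem_univ i) h
      have r2 : ∀ i, Q0 * Q i = 0 := by
        intro i
        rw [hQ0, sub_mul, (Q4 i).1, Finset.sum_mul, Finset.sum_eq_single i]
        · rw [add_mul, Q1, if_pos rfl, Q3, add_zero, sub_self]
        · intro j _ hj
          rw [add_mul, Q1, if_neg hj, Q3, add_zero]
        · intro h; exact absurd (Finset.mem_univ i) h
      have r3 : star Q0 = Q0 := by
        rw [hQ0, star_sub, hsq, star_sum]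
        congr 1
        apply Finset.sum_congr rfl
        intro i _
        rw [star_add, star_star, add_comm]
      have r4 : ∀ i, star (Q i) * Q0 = 0 := by
        intro i
        have := congrArg star (r2 i)
        rwa [star_mul, r3, star_zero] at this
      have r5 : ∀ i, Q0 * star (Q i) = 0 := by
        intro i
        have := congrArg star (r1 i)
        rwa [star_mul, r3, star_zero] at this
      have r6 : Q0 * Q0 = Q0 := by
        have e1 : Q0 * q = Q0 := by
          rw [hQ0, sub_mul, hqq, Finset.sum_mul]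
          congr 1
          apply Finset.sum_congr rfl
          intro i _
          rw [add_mul, (Q4 i).2, (Q4s i).2]
        conv_lhs => rw [hQ0]
        rw [← hQ0]
        have e2 : Q0 * (q - ∑ i, (Q i + star (Q i))) = Q0 := by
          rw [mul_sub, e1, Finset.mul_sum, Finset.sum_eq_zero, sub_zero]
          intro i _
          rw [mul_add, r2, r5, add_zero]
        rwa [← hQ0] at e2
      -- the index set
      let n : (Fin Y.dim ⊕ Fin Y.dim) ⊕ Unit → cor0 C Y :=
        Sum.elim (Sum.elim Q (fun i => star (Q i))) fun _ => Q0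
      let δ : (Fin Y.dim ⊕ Fin Y.dim) ⊕ Unit → ℕ :=
        Sum.elim (Sum.elim (fun i => (i : ℕ)) (fun i => 2 * Y.dim - i)) fun _ => Y.dim
      let s : (Fin Y.dim ⊕ Fin Y.dim) ⊕ Unit ≃ (Fin Y.dim ⊕ Fin Y.dim) ⊕ Unit :=
        Equiv.sumCongr (Equiv.sumComm _ _) (Equiv.refl Unit)
      have hδ : ∀ i, δ i ≤ 2 * Y.dim := by
        rintro ((i | i) | i)
        · simp only [δ, Sum.elim_inl]; omega
        · simp only [δ, Sum.elim_inl, Sum.elim_inr]; omega
        · simp only [δ, Sum.elim_inr]; omega
      have hδs : ∀ i, δ (s i) = 2 * Y.dim - δ i := by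
        rintro ((i | i) | i)
        · rfl
        · simp only [δ, Sum.elim_inl, Sum.elim_inr]
          change (i : ℕ) = _
          have := i.2
          omega
        · simp only [δ, Sum.elim_inr]
          change Y.dim = _
          omega
      have hδinj : ∀ i j, δ i = δ j → i = j := by
        rintro ((i | i) | i) ((j | j) | j) h
        · simp only [δ, Sum.elim_inl] at h
          rw [Fin.ext h]
        · simp only [δ, Sum.elim_inl, Sum.elim_inr] at h
          omega
        · simp only [δ, Sum.elim_inl, Sum.elim_inr] at h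
          omega
        · simp only [δ, Sum.elim_inl, Sum.elim_inr] at h
          omega
        · simp only [δ, Sum.elim_inl, Sum.elim_inr] at h
          rw [Fin.ext (show (i : ℕ) = j by omega)]
        · simp only [δ, Sum.elim_inl, Sum.elim_inr] at h
          omega
        · simp only [δ, Sum.elim_inl, Sum.elim_inr] at h
          omega
        · simp only [δ, Sum.elim_inl, Sum.elim_inr] at h
          omega
        · rfl
      have hnact : ∀ i (l : ℤ), l ≠ δ i → ∀ y ∈ H.gr Y l, rho H Y (n i) y = 0 := by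
        rintro ((i | i) | i) l hl y hy
        · exact Q5 i l hl y hy
        · simp only [δ, Sum.elim_inl, Sum.elim_inr] at hl
          apply rho_star_zero (m := 2 * Y.dim - l) (a := Q i)
          · apply Q5
            omega
          · rwa [sub_sub_cancel]
        · exact Q6 l hl y hy
      obtain ⟨m, m1, m2, m3, m4⟩ := witt_cancel s n (fun i => P (δ i)) q (by
          rintro ((i | i) | i) ((j | j) | j)
          · simp only [n, Sum.elim_inl, Q1, Sum.inl.injEq]
          · simp only [n, Sum.elim_inl, Sum.elim_inr, Q2, Sum.inl.injEq, reduceCtorEq, if_false]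
          · simp only [n, Sum.elim_inl, Sum.elim_inr, r1, reduceCtorEq, if_false]
          · simp only [n, Sum.elim_inl, Sum.elim_inr, Q3, Sum.inl.injEq, reduceCtorEq, if_false]
          · simp only [n, Sum.elim_inl, Sum.elim_inr, Q1s, Sum.inl.injEq, Sum.inr.injEq]
          · simp only [n, Sum.elim_inl, Sum.elim_inr, r4, reduceCtorEq, if_false]
          · simp only [n, Sum.elim_inl, Sum.elim_inr, r2, reduceCtorEq, if_false]
          · simp only [n, Sum.elim_inl, Sum.elim_inr, r5, reduceCtorEq, if_false]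
          · simp only [n, Sum.elim_inr, if_true, r6])
        (by
          rintro ((i | i) | i)
          · rfl
          · exact star_star _
          · exact r3)
        (by
          rw [Fintype.sum_sum_type, Fintype.sum_sum_type]
          simp only [n, Sum.elim_inl, Sum.elim_inr, Fintype.sum_unique]
          rw [← Finset.sum_add_distrib, hQ0, add_sub_cancel])
        (by
          intro i j
          rw [hPP]
          by_cases h : i = j
          · rw [if_pos (congrArg δ h), if_pos h]
          · rw [if_neg (fun h' => h (hδinj i j h')), if_neg h])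
        (by
          intro i
          rw [hPs _ (hδ i), hδs])
        (by
          rw [← hPsum, ← sum_symm, Fintype.sum_sum_type, Fintype.sum_sum_type,
            ← Finset.sum_add_distrib]
          simp only [δ, Sum.elim_inl, Sum.elim_inr, Fintype.sum_unique])
        (rho H Y) hN
        (by
          intro i
          apply ext_gr H
          intro l y hy
          rw [map_mul, Module.End.mul_apply]
          by_cases hl : l = δ i
          · rw [hPact _ l _ (rho_mem _ hy), if_pos hl]
          · rw [hnact i l hl y hy, map_zero])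
        (by
          intro i
          apply ext_gr H
          intro l y hy
          rw [map_mul, Module.End.mul_apply, hPact _ l y hy]
          split_ifs with hl
          · rfl
          · rw [map_zero, hnact i l hl y hy])
      have m3' : ∑ i, m i = p := by rw [m3, hq, sub_sub_cancel]
      have mp : ∀ i, m i * p = m i := by
        intro i
        rw [← m3', Finset.mul_sum, Finset.sum_eq_single i]
        · rw [m1, if_pos rfl]
        · intro j _ hj; rw [m1, if_neg (Ne.symm hj)]
        · intro h; exact absurd (Finset.mem_univ i) h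
      have mact : ∀ i (l : ℤ), l ≠ δ i → ∀ y ∈ H.gr Y l, rho H Y (m i) y = 0 := by
        intro i l hl y hy
        obtain ⟨a, b, hab⟩ := m4 i
        rw [hab, map_mul, map_mul, Module.End.mul_apply, Module.End.mul_apply,
          hPact _ l _ (rho_mem b hy), if_neg hl, map_zero]
      refine selfDual_of_family (H := H) (fun i => dwn hd c⁻¹ hE' (m i))
        (fun i => if 2 * e ≤ δ i ∧ δ i ≤ 2 * Y.dim - 2 * e then δ i - 2 * e else X.dim)
        ?_ ?_ ?_ ?_ s ?_ ?_
      · intro i j
        rw [dwn_mul hd hc hE' hEE, ← hp, mp, m1]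
        split_ifs with h
        · rfl
        · apply toA_inj
          rw [toA_dwn, map_zero, comp_zero, zero_comp, smul_zero, map_zero]
      · have h1 := map_sum (dwnA hd c hE') m Finset.univ
        have h2 : ∀ i, dwnA hd c hE' (m i) = dwn hd c⁻¹ hE' (m i) := fun i => rfl
        rw [Finset.sum_congr rfl fun i _ => h2 i] at h1
        rw [← h1, m3', hp]
        exact dwn_ups hd hc hE' hEE 1
      · intro i
        have := hδ i
        split_ifs <;> omega
      · intro i l hl x hx
        by_cases hx0 : x = 0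
        · rw [hx0, map_zero]
        have h1 := gr_zero_of hx hx0
        apply dwn_act hd hE' _ x hx
        intro y hy
        apply mact i _ _ y hy
        intro h2
        apply hl
        rw [if_pos (by omega)]
        omega
      · intro i
        rw [dwn_star, m2]
      · intro i
        rw [hδs]
        have := hδ i
        split_ifs <;> omega
    · intro m
      refine ⟨toA (q * P m), (q * P m).2, ?_⟩
      intro l y hy
      rw [← rho_toA, map_mul, Module.End.mul_apply, hPact m l y hy, ← rho_toA]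
      split_ifs
      · rfl
      · rw [map_zero]
  · rintro ⟨⟨π, hπ, hsd⟩, hκ⟩
    choose κ hκ1 hκ2 using hκ
    obtain ⟨P, hP⟩ : ∃ P : ℕ → cor0 C X, ∀ n, toA (P n) = π n :=
      ⟨fun n => ofA (π n) (hπ.deg n), fun n => rfl⟩
    have hPact : ∀ (n : ℕ) (l : ℤ) (y : H.A X), y ∈ H.gr X l → rho H X (P n) y =
        if l = n then y else 0 := by
      intro n l y hy
      rw [rho_toA, hP]
      exact hπ.actH_eq n l hy
    have hPP : ∀ m n, P m * P n = if m = n then P m else 0 := by
      intro m n
      apply toA_inj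
      rw [toA_mul, hP, hP, hπ.comp_eq]
      by_cases h : m = n
      · subst h
        rw [if_pos rfl, if_pos rfl, hP]
      · rw [if_neg (Ne.symm h), if_neg h, map_zero]
    have hPs : ∀ n ≤ 2 * X.dim, star (P n) = P (2 * X.dim - n) := by
      intro n hn
      apply toA_inj
      rw [toA_star, hP, hP]
      exact hsd n hn
    have hPsum : ∑ n ∈ Finset.range (2 * X.dim + 1), P n = 1 := by
      apply toA_inj
      rw [map_sum, toA_one, ← hπ.sum]
      exact Finset.sum_congr rfl fun n _ => hP n
    obtain ⟨Q, Q1, Q2, Q3, Q4, Q5, Q6⟩ := corner_system hqq hsq hN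
      (fun m => (ofA (κ m) (hκ1 m) : cor0 C Y)) (by
        intro m hm l y hy
        rw [rho_toA, toA_ofA, hκ2 m l y hy, rho_toA])
    have Q4s : ∀ i, q * star (Q i) = star (Q i) ∧ star (Q i) * q = star (Q i) := by
      intro i
      have h1 := congrArg star (Q4 i).1
      have h2 := congrArg star (Q4 i).2
      rw [star_mul, hsq] at h1 h2
      exact ⟨h2, h1⟩
    obtain ⟨V, hV⟩ : ∃ V : cor0 C X → cor0 C Y, ∀ a, V a = ups hd c⁻¹ hE' a := ⟨_, fun _ => rfl⟩
    have hVm : ∀ a b, V a * V b = V (a * b) := fun a b => by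
      rw [hV, hV, hV, ups_mul hd hc hE' hEE]
    have hVs : ∀ a, star (V a) = V (star a) := fun a => by rw [hV, hV, ups_star]
    have hV0 : V 0 = 0 := by rw [hV, ups_zero]
    have hV1 : V 1 = p := by rw [hV, hp]
    have hVp : ∀ a, V a * p = V a ∧ p * V a = V a := fun a => by
      rw [← hV1, hVm, hVm, mul_one, one_mul]; exact ⟨rfl, rfl⟩
    have hVadd : ∀ a b, V (a + b) = V a + V b := fun a b => by
      rw [hV, hV, hV, ups_add]
    have hVsum : ∀ {ι : Type} (s : Finset ι) (f : ι → cor0 C X),
        V (∑ i ∈ s, f i) = ∑ i ∈ s, V (f i) := fun s f =>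
      map_sum (AddMonoidHom.mk' V hVadd) f s
    have x1 : ∀ a i, V a * Q i = 0 := fun a i => by
      rw [← (hVp a).1, ← (Q4 i).1, mul_assoc, ← mul_assoc p, hpq, zero_mul, mul_zero]
    have x2 : ∀ a i, Q i * V a = 0 := fun a i => by
      rw [← (hVp a).2, ← (Q4 i).2, mul_assoc, ← mul_assoc q, hqp, zero_mul, mul_zero]
    have x3 : ∀ a i, V a * star (Q i) = 0 := fun a i => by
      rw [← (hVp a).1, ← (Q4s i).1, mul_assoc, ← mul_assoc p, hpq, zero_mul, mul_zero]
    have x4 : ∀ a i, star (Q i) * V a = 0 := fun a i => by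
      rw [← (hVp a).2, ← (Q4s i).2, mul_assoc, ← mul_assoc q, hqp, zero_mul, mul_zero]
    refine selfDual_of_isotropic (H := H) (ι := Fin X.dim ⊕ Fin Y.dim)
      (Sum.elim (fun i => V (P i)) Q) (Sum.elim (fun i => (i : ℕ) + 2 * e) (fun i => (i : ℕ)))
      ?_ ?_ ?_ ?_ ?_ ?_
    · rintro (i | i)
      · simp only [Sum.elim_inl]; omega
      · simp only [Sum.elim_inr]; omega
    · rintro (i | i) (j | j)
      · simp only [Sum.elim_inl, Sum.inl.injEq, hVm, hPP]
        by_cases h : i = j
        · rw [if_pos (congrArg _ h), if_pos h]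
        · rw [if_neg (fun h' => h (Fin.ext h')), if_neg h, hV0]
      · simp only [Sum.elim_inl, Sum.elim_inr, x1, reduceCtorEq, if_false]
      · simp only [Sum.elim_inl, Sum.elim_inr, x2, reduceCtorEq, if_false]
      · simp only [Sum.elim_inr, Q1, Sum.inr.injEq]
    · rintro (i | i) (j | j)
      · simp only [Sum.elim_inl]
        rw [hVs, hPs _ (by omega), hVm, hPP, if_neg (by omega), hV0]
      · simp only [Sum.elim_inl, Sum.elim_inr, x3]
      · simp only [Sum.elim_inl, Sum.elim_inr, hVs, x2]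
      · simp only [Sum.elim_inr, Q2]
    · rintro (i | i) (j | j)
      · simp only [Sum.elim_inl]
        rw [hVs, hPs _ (by omega), hVm, hPP, if_neg (by omega), hV0]
      · simp only [Sum.elim_inl, Sum.elim_inr, hVs, x1]
      · simp only [Sum.elim_inl, Sum.elim_inr, x4]
      · simp only [Sum.elim_inr, Q3]
    · rintro (i | i) l hl y hy
      · simp only [Sum.elim_inl] at hl ⊢
        rw [hV]
        apply ups_act hd hE' _ y hy
        intro x hx
        rw [hPact _ _ x hx, if_neg]
        push_cast at hl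
        omega
      · exact Q5 i l hl y hy
    · intro l hl y hy
      have h1 : (1 : cor0 C Y) - ∑ i : Fin X.dim ⊕ Fin Y.dim,
          (Sum.elim (fun i : Fin X.dim => V (P i)) Q i +
            star (Sum.elim (fun i : Fin X.dim => V (P i)) Q i)) =
          V (P X.dim) + (q - ∑ i, (Q i + star (Q i))) := by
        rw [Fintype.sum_sum_type]
        simp only [Sum.elim_inl, Sum.elim_inr]
        have h2 : ∑ i : Fin X.dim, (V (P i) + star (V (P i))) + V (P X.dim) = p := by
          have h3 : ∀ i ∈ (Finset.univ : Finset (Fin X.dim)), V (P i) + star (V (P i)) =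
              V (P i) + V (P (2 * X.dim - i)) := by
            intro i _
            rw [hVs, hPs _ (by omega)]
          rw [Finset.sum_congr rfl h3, sum_symm (fun n => V (P n)) X.dim, ← hVsum, hPsum, hV1]
        rw [hq, ← h2]
        abel
      rw [h1, map_add, LinearMap.add_apply, Q6 l hl y hy, add_zero, hV]
      apply ups_act hd hE' _ y hy
      intro x hx
      rw [hPact _ _ x hx, if_neg]
      omega

end Pool.Agent.R904
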