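import Pool.Agent.R904.Iso

/-!
# Decompositions of direct summands
-/

namespace Pool.Agent.R904

variable {R : Type*} [Ring R] [Algebra ℚ R] [StarRing R] {S : Type*} [Ring S] {ρ : R →+* S}

/-- A sum of elements generating nil left ideals can be subtracted from `1`. -/
lemma isUnit_one_sub_sum {ι : Type*} [DecidableEq ι] (t : Finset ι) (c : ι → R)
    (hc : ∀ i ∈ t, ∀ y, IsNilpotent (y * c i)) : IsUnit (1 - ∑ i ∈ t, c i) := by
  induction t using Finset.induction_on with
  | empty => simp
  | insert a t ha ih =>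
    obtain ⟨u, hu⟩ := ih fun i hi => hc i (Finset.mem_insert_of_mem hi)
    have h1 := hc a (Finset.mem_insert_self a t) ((u⁻¹ : Rˣ) : R)
    obtain ⟨v, hv⟩ := h1.isUnit_one_sub
    refine ⟨u * v, ?_⟩
    rw [Units.val_mul, hv, mul_sub, mul_one, ← mul_assoc, Units.mul_inv, one_mul, hu,
      Finset.sum_insert ha]
    abel

/-- **Decompositions of direct summands.** -/
theorem exists_summand_system {ι : Type*} [DecidableEq ι] (s : Finset ι) (w : ι) (hw : w ∈ s)
    (q : R) (hqq : q * q = q) (α : ι → R) (hqα : ∀ i, q * α i = α i) (hαq : ∀ i, α i * q = α i)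
    (hsum : ∑ i ∈ s, α i = q) (hN : ∀ i, i ≠ w → NilFac ρ (α i))
    (h1 : ∀ i j, ρ (α i * α j) = if i = j then ρ (α i) else 0) :
    ∃ μ : ι → R, (∀ i ∈ s, ∀ j ∈ s, μ i * μ j = if i = j then μ i else 0) ∧
      ∑ i ∈ s, μ i = q ∧ (∀ i ∈ s, ρ (μ i) = ρ (α i)) ∧
      (∀ i ∈ s, ∃ x y, μ i = x * α i * y) := by
  have key : ∀ t : Finset ι, w ∉ t → ∃ μ : ι → R,
      (∀ i ∈ t, ∀ j ∈ t, μ i * μ j = if i = j then μ i else 0) ∧
      (∀ i ∈ t, q * μ i = μ i ∧ μ i * q = μ i) ∧ (∀ i ∈ t, ρ (μ i) = ρ (α i)) ∧
      (∀ i ∈ t, ∃ x y, μ i = x * α i * y) := by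
    intro t
    induction t using Finset.induction_on with
    | empty => exact fun _ => ⟨fun _ => 0, by simp, by simp, by simp, by simp⟩
    | insert a t ha ih =>
      intro hwt
      rw [Finset.mem_insert, not_or] at hwt
      obtain ⟨μ, m1, m2, m3, m4⟩ := ih hwt.2
      obtain ⟨G, hG⟩ : ∃ G, G = ∑ i ∈ t, μ i := ⟨_, rfl⟩
      have Gm : ∀ i ∈ t, G * μ i = μ i := by
        intro i hi
        rw [hG, Finset.sum_mul, Finset.sum_eq_single_of_mem i hi]
        · rw [m1 i hi i hi, if_pos rfl]
        · intro j hj hji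
          rw [m1 j hj i hi, if_neg hji]
      have mG : ∀ i ∈ t, μ i * G = μ i := by
        intro i hi
        rw [hG, Finset.mul_sum, Finset.sum_eq_single_of_mem i hi]
        · rw [m1 i hi i hi, if_pos rfl]
        · intro j hj hji
          rw [m1 i hi j hj, if_neg (Ne.symm hji)]
      have hGG : G * G = G := by
        have e1 : G * G = ∑ i ∈ t, μ i * G := by rw [← Finset.sum_mul, ← hG]
        rw [e1, Finset.sum_congr rfl fun i hi => mG i hi, ← hG]
      have hqG : q * G = G := by
        rw [hG, Finset.mul_sum]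
        exact Finset.sum_congr rfl fun i hi => (m2 i hi).1
      have hGq : G * q = G := by
        rw [hG, Finset.sum_mul]
        exact Finset.sum_congr rfl fun i hi => (m2 i hi).2
      obtain ⟨F, hF⟩ : ∃ F, F = 1 - G := ⟨_, rfl⟩
      have hGF : G * F = 0 := by rw [hF, mul_sub, mul_one, hGG, sub_self]
      have hFG : F * G = 0 := by rw [hF, sub_mul, one_mul, hGG, sub_self]
      obtain ⟨β, hβ⟩ : ∃ β, β = F * α a * F := ⟨_, rfl⟩
      have hρG1 : ρ (G * α a) = 0 := by
        rw [hG, Finset.sum_mul, map_sum]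
        apply Finset.sum_eq_zero
        intro i hi
        have hia : i ≠ a := fun h => ha (h ▸ hi)
        rw [map_mul, m3 i hi, ← map_mul, h1, if_neg hia]
      have hρG2 : ρ (α a * G) = 0 := by
        rw [hG, Finset.mul_sum, map_sum]
        apply Finset.sum_eq_zero
        intro i hi
        have hia : i ≠ a := fun h => ha (h ▸ hi)
        rw [map_mul, m3 i hi, ← map_mul, h1, if_neg hia.symm]
      have hρβ : ρ β = ρ (α a) := by
        have e1 : β = α a - G * α a - α a * G + G * α a * G := by
          rw [hβ, hF]; noncomm_ring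
        rw [e1, map_add, map_sub, map_sub, hρG1, hρG2, map_mul ρ (G * α a), hρG1, zero_mul]
        abel
      have hNβ : NilFac ρ β := by
        rw [hβ]
        exact ((hN a (Ne.symm hwt.1)).mul_left F).mul_right F
      obtain ⟨ε, ε1, ε2, -, ε4, ε5, y, ε6⟩ := exists_spectral hNβ (by
        rw [map_mul, hρβ, ← map_mul, h1, if_pos rfl])
      have hGε : G * ε = 0 := ε4 G (by rw [hβ, ← mul_assoc, ← mul_assoc, hGF, zero_mul, zero_mul])
      have hεG : ε * G = 0 := ε5 G (by rw [hβ, mul_assoc, hFG, mul_zero])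
      have hqε : q * ε = ε := by
        have e1 : (1 - q) * β = 0 := by
          have : (1 - q) * (F * α a) = 0 := by
            rw [hF, sub_mul, one_mul, sub_mul, one_mul, mul_sub, hqα, ← mul_assoc q, hqG,
              sub_self]
          rw [hβ, ← mul_assoc, this, zero_mul]
        have := ε4 (1 - q) e1
        rw [sub_mul, one_mul, sub_eq_zero] at this
        exact this.symm
      have hεq : ε * q = ε := by
        have e1 : β * (1 - q) = 0 := by
          have : (α a * F) * (1 - q) = 0 := by
            rw [hF, mul_sub, mul_one, mul_sub, mul_one, sub_mul, hαq, mul_assoc, hGq, sub_self]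
          rw [hβ, mul_assoc F, mul_assoc F, this, mul_zero]
        have := ε5 (1 - q) e1
        rw [mul_sub, mul_one, sub_eq_zero] at this
        exact this.symm
      have hne : ∀ i ∈ t, i ≠ a := fun i hi h => ha (h ▸ hi)
      refine ⟨Function.update μ a ε, ?_, ?_, ?_, ?_⟩
      · intro i hi j hj
        rw [Finset.mem_insert] at hi hj
        rcases hi with rfl | hi <;> rcases hj with rfl | hj
        · rw [Function.update_self, ε1, if_pos rfl]
        · rw [Function.update_self, Function.update_of_ne (hne j hj), if_neg (Ne.symm (hne j hj)),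
            ← Gm j hj, ← mul_assoc, hεG, zero_mul]
        · rw [Function.update_self, Function.update_of_ne (hne i hi), if_neg (hne i hi),
            ← mG i hi, mul_assoc, hGε, mul_zero]
        · rw [Function.update_of_ne (hne i hi), Function.update_of_ne (hne j hj), m1 i hi j hj]
      · intro i hi
        rw [Finset.mem_insert] at hi
        rcases hi with rfl | hi
        · rw [Function.update_self]; exact ⟨hqε, hεq⟩
        · rw [Function.update_of_ne (hne i hi)]; exact m2 i hi
      · intro i hi
        rw [Finset.mem_insert] at hi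
        rcases hi with rfl | hi
        · rw [Function.update_self, ε2, hρβ]
        · rw [Function.update_of_ne (hne i hi), m3 i hi]
      · intro i hi
        rw [Finset.mem_insert] at hi
        rcases hi with rfl | hi
        · rw [Function.update_self]
          exact ⟨F, F * y, by rw [ε6, hβ]; simp only [mul_assoc]⟩
        · rw [Function.update_of_ne (hne i hi)]; exact m4 i hi
  obtain ⟨μ, m1, m2, m3, m4⟩ := key (s.erase w) (Finset.notMem_erase w s)
  obtain ⟨G, hG⟩ : ∃ G, G = ∑ i ∈ s.erase w, μ i := ⟨_, rfl⟩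
  have Gm : ∀ i ∈ s.erase w, G * μ i = μ i := by
    intro i hi
    rw [hG, Finset.sum_mul, Finset.sum_eq_single_of_mem i hi]
    · rw [m1 i hi i hi, if_pos rfl]
    · intro j hj hji
      rw [m1 j hj i hi, if_neg hji]
  have mG : ∀ i ∈ s.erase w, μ i * G = μ i := by
    intro i hi
    rw [hG, Finset.mul_sum, Finset.sum_eq_single_of_mem i hi]
    · rw [m1 i hi i hi, if_pos rfl]
    · intro j hj hji
      rw [m1 i hi j hj, if_neg (Ne.symm hji)]
  have hGG : G * G = G := by
    have e1 : G * G = ∑ i ∈ s.erase w, μ i * G := by rw [← Finset.sum_mul, ← hG]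
    rw [e1, Finset.sum_congr rfl fun i hi => mG i hi, ← hG]
  have hqG : q * G = G := by
    rw [hG, Finset.mul_sum]
    exact Finset.sum_congr rfl fun i hi => (m2 i hi).1
  have hGq : G * q = G := by
    rw [hG, Finset.sum_mul]
    exact Finset.sum_congr rfl fun i hi => (m2 i hi).2
  obtain ⟨ω, hω⟩ : ∃ ω, ω = q - G := ⟨_, rfl⟩
  have hωω : ω * ω = ω := by
    rw [hω, mul_sub, sub_mul, sub_mul, hqq, hGq, hqG, hGG]; abel
  have hqω : q * ω = ω := by rw [hω, mul_sub, hqq, hqG]
  have hωq : ω * q = ω := by rw [hω, sub_mul, hqq, hGq]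
  have hωm : ∀ i ∈ s.erase w, ω * μ i = 0 := by
    intro i hi
    rw [hω, sub_mul, (m2 i hi).1, Gm i hi, sub_self]
  have hmω : ∀ i ∈ s.erase w, μ i * ω = 0 := by
    intro i hi
    rw [hω, mul_sub, (m2 i hi).2, mG i hi, sub_self]
  have hρω : ρ ω = ρ (α w) := by
    rw [hω, ← hsum, hG, map_sub, map_sum, map_sum, ← Finset.add_sum_erase s _ hw,
      Finset.sum_congr rfl fun i hi => m3 i hi]
    abel
  -- the factorization of `ω`
  obtain ⟨c, hc⟩ : ∃ c : ι → R, ∀ i, c i = ω * α i * ω := ⟨_, fun _ => rfl⟩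
  have hcρ : ∀ i ∈ s.erase w, ρ (c i) = 0 := by
    intro i hi
    have hiw : i ≠ w := Finset.ne_of_mem_erase hi
    rw [hc, map_mul, map_mul, hρω, ← map_mul, h1, if_neg hiw.symm, zero_mul]
  have hcn : ∀ i ∈ s.erase w, ∀ y, IsNilpotent (y * c i) := by
    intro i hi y
    have hiw : i ≠ w := Finset.ne_of_mem_erase hi
    have h2 : IsNilpotent ((y * c i) * (y * c i)) := by
      have h3 : (y * c i) * (y * c i) = (y * ω) * (α i * (ω * y * c i)) := by
        rw [hc]; simp only [mul_assoc]
      rw [h3]
      apply isNilpotent_comm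
      rw [mul_assoc]
      apply hN i hiw
      rw [map_mul, map_mul, hcρ i hi, mul_zero, zero_mul]
    rw [← pow_two] at h2
    obtain ⟨n, hn⟩ := h2
    exact ⟨2 * n, by rw [pow_mul]; exact hn⟩
  obtain ⟨u, hu⟩ := isUnit_one_sub_sum (s.erase w) c hcn
  have hωu : ω * u = ω * α w * ω := by
    have h2 : ω * q * ω = ω := by rw [hωq, hωω]
    have h3 : ω = ω * α w * ω + ∑ i ∈ s.erase w, c i := by
      conv_lhs => rw [← h2, ← hsum]
      rw [Finset.mul_sum, Finset.sum_mul, ← Finset.add_sum_erase s _ hw]
      simp_rw [hc]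
    have h4 : ω * ∑ i ∈ s.erase w, c i = ∑ i ∈ s.erase w, c i := by
      rw [Finset.mul_sum]
      apply Finset.sum_congr rfl
      intro i _
      rw [hc, ← mul_assoc, ← mul_assoc, hωω]
    rw [hu, mul_sub, mul_one, h4]
    conv_lhs => rw [h3]
    rw [add_sub_cancel_right]
  have hne : ∀ i ∈ s.erase w, i ≠ w := fun i hi => Finset.ne_of_mem_erase hi
  have hcases : ∀ i ∈ s, i = w ∨ i ∈ s.erase w := by
    intro i hi
    by_cases h : i = w
    · exact Or.inl h
    · exact Or.inr (Finset.mem_erase.2 ⟨h, hi⟩)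
  refine ⟨Function.update μ w ω, ?_, ?_, ?_, ?_⟩
  · intro i hi j hj
    rcases hcases i hi with rfl | hi <;> rcases hcases j hj with rfl | hj
    · rw [Function.update_self, hωω, if_pos rfl]
    · rw [Function.update_self, Function.update_of_ne (hne j hj), if_neg (Ne.symm (hne j hj)),
        hωm j hj]
    · rw [Function.update_self, Function.update_of_ne (hne i hi), if_neg (hne i hi), hmω i hi]
    · rw [Function.update_of_ne (hne i hi), Function.update_of_ne (hne j hj), m1 i hi j hj]
  · rw [← Finset.add_sum_erase s _ hw, Function.update_self]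
    have : ∑ x ∈ s.erase w, Function.update μ w ω x = G := by
      rw [hG]
      apply Finset.sum_congr rfl
      intro i hi
      rw [Function.update_of_ne (hne i hi)]
    rw [this, hω, sub_add_cancel]
  · intro i hi
    rcases hcases i hi with rfl | hi
    · rw [Function.update_self, hρω]
    · rw [Function.update_of_ne (hne i hi), m3 i hi]
  · intro i hi
    rcases hcases i hi with rfl | hi
    · rw [Function.update_self]
      refine ⟨ω, ω * ((u⁻¹ : Rˣ) : R), ?_⟩
      rw [← mul_assoc, ← hωu, mul_assoc, Units.mul_inv, mul_one]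
    · rw [Function.update_of_ne (hne i hi)]; exact m4 i hi

end Pool.Agent.R904
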